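import Mathlib

/-!
# Mixed radix digits and product kernels
-/

namespace Pool.Agent.R165.Vil

open Finset

variable (m : ℕ → ℕ)

/-- `M_n = m_0 ⋯ m_{n-1}`. -/
def M (n : ℕ) : ℕ := ∏ j ∈ range n, m j

theorem M_zero : M m 0 = 1 := by simp [M]

theorem M_succ (n : ℕ) : M m (n + 1) = M m n * m n := by
  unfold M
  rw [prod_range_succ]

/-- The `j`-th digit of `i`. -/
def dig (j i : ℕ) : ℕ := (i / M m j) % m j

variable {m} (hm : ∀ k, 0 < m k)

section
include hm

theorem M_pos (n : ℕ) : 0 < M m n := prod_pos fun j _ => hm j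

omit hm in
theorem M_dvd {a b : ℕ} (h : a ≤ b) : M m a ∣ M m b := by
  obtain ⟨c, rfl⟩ := Nat.exists_eq_add_of_le h
  unfold M
  rw [prod_range_add]
  exact Dvd.intro _ rfl

theorem dig_lt (j i : ℕ) : dig m j i < m j := Nat.mod_lt _ (hm j)

theorem dig_low {j N : ℕ} (h : j < N) (u v : ℕ) : dig m j (u + M m N * v) = dig m j u := by
  obtain ⟨q, hq⟩ := M_dvd (m := m) (show j + 1 ≤ N from h)
  unfold dig
  rw [hq, M_succ]
  have e : u + M m j * m j * q * v = u + M m j * (m j * (q * v)) := by ring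
  rw [e, Nat.add_mul_div_left _ _ (M_pos hm j), Nat.add_mul_mod_self_left]

omit hm in
theorem dig_zero (j : ℕ) : dig m j 0 = 0 := by simp [dig]

theorem dig_mul_low {j N : ℕ} (h : j < N) (v : ℕ) : dig m j (M m N * v) = 0 := by
  have := dig_low hm h 0 v
  rw [zero_add, dig_zero] at this
  exact this

theorem dig_high {j N : ℕ} (h : N ≤ j) {u : ℕ} (hu : u < M m N) (v : ℕ) :
    dig m j (u + M m N * v) = dig m j (M m N * v) := by
  obtain ⟨q, hq⟩ := M_dvd (m := m) h
  unfold dig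
  rw [hq, ← Nat.div_div_eq_div_mul, ← Nat.div_div_eq_div_mul,
    Nat.add_mul_div_left _ _ (M_pos hm N), Nat.div_eq_of_lt hu, zero_add,
    Nat.mul_div_cancel_left _ (M_pos hm N)]

theorem dig_small {j N : ℕ} (h : N ≤ j) {u : ℕ} (hu : u < M m N) : dig m j u = 0 := by
  unfold dig
  rw [Nat.div_eq_of_lt (hu.trans_le (Nat.le_of_dvd (M_pos hm j) (M_dvd h))), Nat.zero_mod]

theorem dig_top {N : ℕ} {u a : ℕ} (hu : u < M m N) (ha : a < m N) :
    dig m N (u + M m N * a) = a := by
  unfold dig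
  rw [Nat.add_mul_div_left _ _ (M_pos hm N), Nat.div_eq_of_lt hu, zero_add, Nat.mod_eq_of_lt ha]

end

theorem sum_range_mul' {R : Type*} [AddCommMonoid R] (f : ℕ → R) (A c : ℕ) :
    ∑ i ∈ range (A * c), f i = ∑ a ∈ range c, ∑ u ∈ range A, f (u + A * a) := by
  induction c with
  | zero => simp
  | succ c ih =>
    rw [Nat.mul_succ, sum_range_add, ih, sum_range_succ]
    congr 1
    refine sum_congr rfl fun u _ => ?_
    rw [add_comm]

variable (m) in
/-- The character with digits of `i` attached to a sequence of complex numbers. -/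
noncomputable def ch (N : ℕ) (z : ℕ → ℂ) (i : ℕ) : ℂ := ∏ j ∈ range N, z j ^ dig m j i

theorem ch_mul (N : ℕ) (z w : ℕ → ℂ) (i : ℕ) :
    ch m N (fun j => z j * w j) i = ch m N z i * ch m N w i := by
  unfold ch
  rw [← prod_mul_distrib]
  exact prod_congr rfl fun j _ => mul_pow _ _ _

theorem ch_norm {N : ℕ} {z : ℕ → ℂ} (hz : ∀ j < N, ‖z j‖ = 1) (i : ℕ) : ‖ch m N z i‖ = 1 := by
  unfold ch
  rw [norm_prod]
  refine prod_eq_one fun j hj => ?_
  rw [norm_pow, hz j (mem_range.mp hj), one_pow]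

theorem ch_congr {N : ℕ} {z w : ℕ → ℂ} (h : ∀ j < N, z j = w j) (i : ℕ) :
    ch m N z i = ch m N w i := by
  unfold ch
  refine prod_congr rfl fun j hj => ?_
  rw [h j (mem_range.mp hj)]

theorem ch_star (N : ℕ) (z : ℕ → ℂ) (i : ℕ) :
    ch m N (fun j => starRingEnd ℂ (z j)) i = starRingEnd ℂ (ch m N z i) := by
  unfold ch
  rw [map_prod]
  exact prod_congr rfl fun j _ => (map_pow _ _ _).symm

section
include hm

/-- The product formula for the Abel kernel. -/
theorem kernel (z : ℕ → ℂ) (t : ℂ) (N : ℕ) :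
    ∑ u ∈ range (M m N), ch m N z u * t ^ u =
      ∏ j ∈ range N, ∑ a ∈ range (m j), (z j * t ^ M m j) ^ a := by
  induction N with
  | zero => simp [M_zero, ch]
  | succ N ih =>
    rw [M_succ, sum_range_mul', prod_range_succ, ← ih, sum_mul_sum, sum_comm]
    refine sum_congr rfl fun u hu => sum_congr rfl fun a ha => ?_
    have e1 : ch m (N + 1) z (u + M m N * a) = ch m N z u * z N ^ a := by
      unfold ch
      rw [prod_range_succ, dig_top hm (mem_range.mp hu) (mem_range.mp ha)]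
      congr 1
      refine prod_congr rfl fun j hj => ?_
      rw [dig_low hm (mem_range.mp hj)]
    rw [e1, pow_add, mul_pow, ← pow_mul]
    ring

/-- Splitting of a character. -/
theorem ch_split {N n : ℕ} (hN : N ≤ n) (z : ℕ → ℂ) {u : ℕ} (hu : u < M m N) (v : ℕ) :
    ch m n z (u + M m N * v) = ch m N z u * ch m n z (M m N * v) := by
  obtain ⟨c, rfl⟩ := Nat.exists_eq_add_of_le hN
  unfold ch
  rw [prod_range_add, prod_range_add]
  have h1 : ∏ x ∈ range N, z x ^ dig m x (M m N * v) = 1 := by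
    refine prod_eq_one fun j hj => ?_
    rw [dig_mul_low hm (mem_range.mp hj), pow_zero]
  rw [h1, one_mul]
  congr 1
  · refine prod_congr rfl fun j hj => ?_
    rw [dig_low hm (mem_range.mp hj)]
  · refine prod_congr rfl fun j _ => ?_
    rw [dig_high hm (Nat.le_add_right _ _) hu]

end

/-! ## The factor bounds -/

theorem factor_triv {z : ℂ} (hz : ‖z‖ = 1) {s : ℝ} (hs0 : 0 ≤ s) (hs1 : s ≤ 1) (c : ℕ) :
    ‖∑ a ∈ range c, (z * (s : ℂ)) ^ a‖ ≤ c := by
  refine (norm_sum_le _ _).trans ?_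
  have h : ∀ a ∈ range c, ‖(z * (s : ℂ)) ^ a‖ ≤ 1 := by
    intro a _
    rw [norm_pow, norm_mul, hz, one_mul, Complex.norm_real, Real.norm_of_nonneg hs0]
    exact pow_le_one₀ hs0 hs1
  refine (sum_le_sum h).trans ?_
  simp

theorem one_sub_pow_le {s : ℝ} (hs0 : 0 ≤ s) (a : ℕ) : 1 - s ^ a ≤ a * (1 - s) := by
  have := one_add_mul_sub_le_pow (a := s) (by linarith) a
  linarith

theorem factor_zero {z : ℂ} (hz : ‖z‖ = 1) {s : ℝ} (hs0 : 0 ≤ s) (hs1 : s ≤ 1) {c : ℕ}
    (hsum : ∑ a ∈ range c, z ^ a = 0) :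
    ‖∑ a ∈ range c, (z * (s : ℂ)) ^ a‖ ≤ c * c / 2 * (1 - s) := by
  have e : ∑ a ∈ range c, (z * (s : ℂ)) ^ a = ∑ a ∈ range c, z ^ a * ((s ^ a - 1 : ℝ) : ℂ) := by
    have : ∑ a ∈ range c, z ^ a * ((s ^ a - 1 : ℝ) : ℂ) =
        ∑ a ∈ range c, (z * (s : ℂ)) ^ a - ∑ a ∈ range c, z ^ a := by
      rw [← sum_sub_distrib]
      refine sum_congr rfl fun a _ => ?_
      push_cast
      ring
    rw [this, hsum, sub_zero]
  rw [e]
  refine (norm_sum_le _ _).trans ?_
  have h : ∀ a ∈ range c, ‖z ^ a * ((s ^ a - 1 : ℝ) : ℂ)‖ ≤ a * (1 - s) := by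
    intro a _
    rw [norm_mul, norm_pow, hz, one_pow, one_mul, Complex.norm_real, Real.norm_eq_abs,
      abs_sub_comm, abs_of_nonneg (sub_nonneg.mpr (pow_le_one₀ hs0 hs1))]
    exact one_sub_pow_le hs0 a
  refine (sum_le_sum h).trans ?_
  rw [← sum_mul]
  refine mul_le_mul_of_nonneg_right ?_ (by linarith)
  have h2 : ∑ a ∈ range c, (a : ℝ) = (c : ℝ) * (c - 1) / 2 := by
    induction c with
    | zero => simp
    | succ c ih =>
      clear hsum e h
      have : ∀ d : ℕ, ∑ a ∈ range d, (a : ℝ) = (d : ℝ) * (d - 1) / 2 := by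
        intro d
        induction d with
        | zero => simp
        | succ d ihd =>
          rw [sum_range_succ, ihd]
          push_cast
          ring
      exact this _
  rw [h2]
  have : (0 : ℝ) ≤ c := Nat.cast_nonneg c
  nlinarith

theorem root_sum {z : ℂ} {c : ℕ} (h1 : z ^ c = 1) (hne : z ≠ 1) : ∑ a ∈ range c, z ^ a = 0 := by
  have h := geom_sum_mul z c
  rw [h1, sub_self] at h
  exact (mul_eq_zero.mp h).resolve_right (sub_ne_zero.mpr hne)

/-! ## Harmonic numbers and the integral -/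

/-- `l_n = 1 + 1/2 + ... + 1/n`. -/
noncomputable def l (n : ℕ) : ℝ := ∑ k ∈ range n, 1 / ((k : ℝ) + 1)

theorem l_mono {a b : ℕ} (h : a ≤ b) : l a ≤ l b :=
  sum_le_sum_of_subset_of_nonneg (range_mono h) fun _ _ _ => by positivity

theorem l_nonneg (a : ℕ) : 0 ≤ l a := sum_nonneg fun _ _ => by positivity

theorem l_pos {a : ℕ} (h : 0 < a) : 0 < l a := sum_pos (fun _ _ => by positivity) (by
  rw [nonempty_range_iff]
  omega)

theorem l_eq (n : ℕ) : l n = ∫ t in (0 : ℝ)..1, ∑ k ∈ range n, t ^ k := by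
  rw [intervalIntegral.integral_finsetSum fun k _ => (continuous_pow k).intervalIntegrable _ _]
  refine sum_congr rfl fun k _ => ?_
  rw [integral_pow]
  simp

theorem exp_int {a : ℝ} (ha : 0 < a) :
    ∫ t in (0 : ℝ)..1, Real.exp (a / 2 * (t - 1)) ≤ 2 / a := by
  have h : ∀ t ∈ Set.uIcc (0 : ℝ) 1, HasDerivAt (fun t => 2 / a * Real.exp (a / 2 * (t - 1)))
      (Real.exp (a / 2 * (t - 1))) t := by
    intro t _
    have h1 : HasDerivAt (fun t : ℝ => a / 2 * (t - 1)) (a / 2) t := by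
      have := ((hasDerivAt_id t).sub_const 1).const_mul (a / 2)
      simpa using this
    have h2 := (h1.exp).const_mul (2 / a)
    have e : 2 / a * (Real.exp (a / 2 * (t - 1)) * (a / 2)) = Real.exp (a / 2 * (t - 1)) := by
      have := ha.ne'
      field_simp
    rw [e] at h2
    exact h2
  rw [intervalIntegral.integral_eq_sub_of_hasDerivAt h
    ((by fun_prop : Continuous fun t : ℝ => Real.exp (a / 2 * (t - 1))).intervalIntegrable _ _)]
  have h3 : 0 ≤ 2 / a * Real.exp (a / 2 * (0 - 1)) := by positivity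
  rw [sub_self, mul_zero, Real.exp_zero, mul_one]
  linarith

theorem Q_bound {c : ℕ → ℂ} {K : ℝ} (hK : 0 ≤ K) {A a r : ℕ} (ha : 0 < a)
    (hc : ∑ u ∈ range A, c u = 0)
    (hP : ∀ t : ℝ, 0 ≤ t → t ≤ 1 → ‖∑ u ∈ range A, c u * (t : ℂ) ^ u‖ ≤ K * (1 - t) ^ (r + 1)) :
    ‖∑ u ∈ range A, c u * (l (u + a) : ℂ)‖ ≤ K * (r.factorial * (2 / a) ^ (r + 1)) := by
  have ha' : (0 : ℝ) < a := by exact_mod_cast ha
  set g : ℝ → ℂ := fun t => ∑ u ∈ range A, c u * ∑ k ∈ range (u + a), (t : ℂ) ^ k with hg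
  have h1 : ∑ u ∈ range A, c u * (l (u + a) : ℂ) = ∫ t in (0 : ℝ)..1, g t := by
    rw [hg, intervalIntegral.integral_finsetSum fun u _ =>
      (by fun_prop : Continuous fun t : ℝ => c u * ∑ k ∈ range (u + a), (t : ℂ) ^ k).intervalIntegrable
        _ _]
    refine sum_congr rfl fun u _ => ?_
    rw [intervalIntegral.integral_const_mul, l_eq, ← intervalIntegral.integral_ofReal]
    congr 2
    funext t
    push_cast
    rfl
  rw [h1]
  have h2 : ∀ t : ℝ, (1 - (t : ℂ)) * g t = -((t : ℂ) ^ a * ∑ u ∈ range A, c u * (t : ℂ) ^ u) := by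
    intro t
    have e1 : (1 - (t : ℂ)) * g t = ∑ u ∈ range A, (c u - (t : ℂ) ^ a * (c u * (t : ℂ) ^ u)) := by
      rw [hg, mul_sum]
      refine sum_congr rfl fun u _ => ?_
      have e2 := mul_neg_geom_sum (t : ℂ) (u + a)
      calc (1 - (t : ℂ)) * (c u * ∑ k ∈ range (u + a), (t : ℂ) ^ k)
          = c u * ((1 - (t : ℂ)) * ∑ k ∈ range (u + a), (t : ℂ) ^ k) := by ring
        _ = _ := by
            rw [e2, pow_add]
            ring
    rw [e1, sum_sub_distrib, hc, zero_sub, ← mul_sum]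
  have h3 : ‖∫ t in (0 : ℝ)..1, g t‖ ≤
      ∫ t in (0 : ℝ)..1, K * (r.factorial * (2 / a) ^ r) * Real.exp (a / 2 * (t - 1)) := by
    refine intervalIntegral.norm_integral_le_of_norm_le (by norm_num) ?_
      ((by fun_prop : Continuous fun t : ℝ =>
        K * (r.factorial * (2 / a) ^ r) * Real.exp (a / 2 * (t - 1))).intervalIntegrable _ _)
    have h4 : ∀ᵐ t : ℝ, t ≠ 1 := by
      rw [MeasureTheory.ae_iff]
      have : {t : ℝ | ¬t ≠ 1} = {1} := by
        ext t
        simp
      rw [this]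
      exact MeasureTheory.measure_singleton 1
    filter_upwards [h4] with t ht1 ht
    have ht0 : 0 ≤ t := ht.1.le
    have htl : t < 1 := lt_of_le_of_ne ht.2 ht1
    have h5 : (1 - t) * ‖g t‖ ≤ (1 - t) * (t ^ a * (K * (1 - t) ^ r)) := by
      have e1 : (1 - t) * ‖g t‖ = ‖(1 - (t : ℂ)) * g t‖ := by
        rw [norm_mul]
        congr 1
        have : (1 - (t : ℂ)) = ((1 - t : ℝ) : ℂ) := by push_cast; ring
        rw [this, Complex.norm_real, Real.norm_of_nonneg (by linarith)]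
      rw [e1, h2, norm_neg, norm_mul, norm_pow, Complex.norm_real, Real.norm_of_nonneg ht0]
      calc t ^ a * ‖∑ u ∈ range A, c u * (t : ℂ) ^ u‖ ≤ t ^ a * (K * (1 - t) ^ (r + 1)) :=
            mul_le_mul_of_nonneg_left (hP t ht0 htl.le) (by positivity)
        _ = _ := by
            rw [pow_succ]
            ring
    have h6 : ‖g t‖ ≤ t ^ a * (K * (1 - t) ^ r) := le_of_mul_le_mul_left h5 (by linarith)
    refine h6.trans ?_
    have h7 : t ^ a ≤ Real.exp (a * (t - 1)) := by
      have h8 : t ≤ Real.exp (t - 1) := by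
        have := Real.add_one_le_exp (t - 1)
        linarith
      calc t ^ a ≤ (Real.exp (t - 1)) ^ a := pow_le_pow_left₀ ht0 h8 a
        _ = Real.exp (a * (t - 1)) := by rw [← Real.exp_nat_mul]
    have h8 : (1 - t) ^ r ≤ r.factorial * (2 / a) ^ r * Real.exp (a / 2 * (1 - t)) := by
      have h9 := Real.pow_div_factorial_le_exp (a / 2 * (1 - t)) (by
        have : 0 ≤ 1 - t := by linarith
        positivity) r
      rw [div_le_iff₀ (by positivity)] at h9
      have e1 : (1 - t) ^ r = (2 / a) ^ r * (a / 2 * (1 - t)) ^ r := by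
        rw [← mul_pow]
        congr 1
        field_simp
      rw [e1]
      calc (2 / (a : ℝ)) ^ r * (a / 2 * (1 - t)) ^ r ≤
            (2 / a) ^ r * (Real.exp (a / 2 * (1 - t)) * r.factorial) :=
            mul_le_mul_of_nonneg_left h9 (by positivity)
        _ = _ := by ring
    calc t ^ a * (K * (1 - t) ^ r) ≤ Real.exp (a * (t - 1)) *
          (K * (r.factorial * (2 / a) ^ r * Real.exp (a / 2 * (1 - t)))) := by
          refine mul_le_mul h7 (mul_le_mul_of_nonneg_left h8 hK) ?_ (by positivity)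
          have : 0 ≤ 1 - t := by linarith
          positivity
      _ = K * (r.factorial * (2 / a) ^ r) * (Real.exp (a * (t - 1)) *
          Real.exp (a / 2 * (1 - t))) := by ring
      _ = _ := by
          rw [← Real.exp_add]
          congr 2
          ring
  refine h3.trans ?_
  rw [intervalIntegral.integral_const_mul]
  have h4 := exp_int ha'
  calc K * (r.factorial * (2 / a) ^ r) * ∫ t in (0 : ℝ)..1, Real.exp (a / 2 * (t - 1)) ≤
      K * (r.factorial * (2 / a) ^ r) * (2 / a) := mul_le_mul_of_nonneg_left h4 (by positivity)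
    _ = _ := by
        rw [pow_succ]
        ring

end Pool.Agent.R165.Vil
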