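import Pool.Agent.R165.Vil.A

/-!
# The finite level: characters, coefficients, the operator and its L2 bound
-/

namespace Pool.Agent.R165.Vil

open Finset

variable {m : ℕ → ℕ} {n : ℕ}

/-- The finite level `n`. -/
abbrev X (m : ℕ → ℕ) (n : ℕ) := (j : Fin n) → Fin (m j)

/-- Coordinates as natural numbers. -/
def vl (x : X m n) (j : ℕ) : ℕ := if h : j < n then (x ⟨j, h⟩ : ℕ) else 0

theorem vl_fin (x : X m n) (j : Fin n) : vl x j = x j := by
  unfold vl
  rw [dif_pos j.2]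

variable (m) in
/-- Roots of unity. -/
noncomputable def rt (j a : ℕ) : ℂ := Complex.exp (2 * Real.pi * Complex.I * a / m j)

theorem rt_norm (j a : ℕ) : ‖rt m j a‖ = 1 := by
  unfold rt
  have e : (2 * Real.pi * Complex.I * a / m j : ℂ) = ((2 * Real.pi * a / m j : ℝ) : ℂ) * Complex.I := by
    push_cast
    ring
  rw [e, Complex.norm_exp_ofReal_mul_I]

theorem rt_eq_pow (j a : ℕ) : rt m j a = Complex.exp (2 * Real.pi * Complex.I / m j) ^ a := by
  unfold rt
  rw [← Complex.exp_nat_mul]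
  congr 1
  ring

theorem rt_pow {j : ℕ} (hj : 0 < m j) (a : ℕ) : rt m j a ^ m j = 1 := by
  rw [rt_eq_pow, ← pow_mul, mul_comm a, pow_mul, (Complex.isPrimitiveRoot_exp _ hj.ne').pow_eq_one,
    one_pow]

theorem rt_inj {j a b : ℕ} (hj : 0 < m j) (ha : a < m j) (hb : b < m j)
    (h : rt m j a = rt m j b) : a = b := by
  rw [rt_eq_pow, rt_eq_pow] at h
  exact (Complex.isPrimitiveRoot_exp _ hj.ne').pow_inj ha hb h

/-- The sequence of `r_j(x)`. -/
noncomputable def zs (x : X m n) (j : ℕ) : ℂ := rt m j (vl x j)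

theorem zs_norm (x : X m n) (j : ℕ) : ‖zs x j‖ = 1 := rt_norm _ _

/-- The ratio of the `r_j`. -/
noncomputable def rat (x y : X m n) (j : ℕ) : ℂ := zs x j * starRingEnd ℂ (zs y j)

theorem rat_norm (x y : X m n) (j : ℕ) : ‖rat x y j‖ = 1 := by
  unfold rat
  rw [norm_mul, RCLike.norm_conj, zs_norm, zs_norm, one_mul]

theorem rat_self {x y : X m n} {j : ℕ} (h : vl x j = vl y j) : rat x y j = 1 := by
  unfold rat zs
  rw [h, Complex.mul_conj, Complex.normSq_eq_norm_sq, rt_norm]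
  simp

theorem vl_lt (hm : ∀ k, 0 < m k) (x : X m n) (j : ℕ) : vl x j < m j := by
  unfold vl
  split_ifs with h
  · exact (x ⟨j, h⟩).2
  · exact hm j

theorem rat_sum (hm : ∀ k, 0 < m k) {x y : X m n} {j : ℕ} (h : vl x j ≠ vl y j) :
    ∑ a ∈ range (m j), rat x y j ^ a = 0 := by
  refine root_sum ?_ ?_
  · unfold rat zs
    rw [mul_pow, ← map_pow, rt_pow (hm j), rt_pow (hm j), map_one, one_mul]
  · intro h1
    refine h (rt_inj (hm j) (vl_lt hm x j) (vl_lt hm y j) ?_)
    have h2 : starRingEnd ℂ (zs y j) * zs y j = 1 := by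
      rw [mul_comm, Complex.mul_conj, Complex.normSq_eq_norm_sq, zs_norm]
      simp
    have h3 : zs x j = rat x y j * zs y j := by
      unfold rat
      rw [mul_assoc, h2, mul_one]
    rw [h1, one_mul] at h3
    exact h3

/-- The characters on the finite level. -/
noncomputable def psi (x : X m n) (i : ℕ) : ℂ := ch m n (zs x) i

theorem psi_norm (x : X m n) (i : ℕ) : ‖psi x i‖ = 1 := ch_norm (fun j _ => zs_norm x j) i

theorem psi_mul_conj (x y : X m n) (i : ℕ) :
    psi x i * starRingEnd ℂ (psi y i) = ch m n (rat x y) i := by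
  unfold psi
  rw [← ch_star, ← ch_mul]
  rfl

theorem kernel_one (hm : ∀ k, 0 < m k) (x y : X m n) :
    ∑ i ∈ range (M m n), psi x i * starRingEnd ℂ (psi y i) = if x = y then (M m n : ℂ) else 0 := by
  have h := kernel hm (rat x y) 1 n
  simp only [one_pow, mul_one] at h
  simp only [psi_mul_conj]
  rw [h]
  split_ifs with hxy
  · subst hxy
    unfold M
    push_cast
    refine prod_congr rfl fun j _ => ?_
    rw [rat_self rfl]
    simp
  · obtain ⟨j, hj⟩ : ∃ j, x j ≠ y j := Function.ne_iff.mp hxy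
    refine prod_eq_zero (mem_range.mpr j.2) (rat_sum hm ?_)
    rw [vl_fin, vl_fin]
    exact fun h => hj (Fin.ext h)

/-- Fourier coefficients. -/
noncomputable def coef (F : X m n → ℂ) (i : ℕ) : ℂ :=
  (M m n : ℂ)⁻¹ * ∑ y, F y * starRingEnd ℂ (psi y i)

theorem parseval (hm : ∀ k, 0 < m k) (F : X m n → ℂ) :
    ∑ i ∈ range (M m n), ‖coef F i‖ ^ 2 = (M m n : ℝ)⁻¹ * ∑ x, ‖F x‖ ^ 2 := by
  have hM : (M m n : ℂ) ≠ 0 := by exact_mod_cast (M_pos hm n).ne'
  have h1 : ∑ i ∈ range (M m n), coef F i * starRingEnd ℂ (coef F i) =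
      (M m n : ℂ)⁻¹ * ∑ x, F x * starRingEnd ℂ (F x) := by
    have h2 : ∀ i, coef F i * starRingEnd ℂ (coef F i) = ∑ x, ∑ y, (M m n : ℂ)⁻¹ * (M m n : ℂ)⁻¹ *
        (F x * starRingEnd ℂ (F y)) * (psi y i * starRingEnd ℂ (psi x i)) := by
      intro i
      unfold coef
      rw [map_mul, map_inv₀, Complex.conj_natCast, map_sum, mul_mul_mul_comm, sum_mul_sum, mul_sum]
      refine sum_congr rfl fun x _ => ?_
      rw [mul_sum]
      refine sum_congr rfl fun y _ => ?_
      rw [map_mul, Complex.conj_conj]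
      ring
    simp only [h2]
    rw [sum_comm, mul_sum]
    refine sum_congr rfl fun x _ => ?_
    rw [sum_comm]
    simp only [← mul_sum, kernel_one hm]
    simp only [mul_ite, mul_zero, sum_ite_eq', mem_univ, if_true]
    field_simp
  have h3 : ∀ w : ℂ, w * starRingEnd ℂ w = ((‖w‖ ^ 2 : ℝ) : ℂ) := by
    intro w
    rw [Complex.mul_conj, Complex.normSq_eq_norm_sq]
  simp only [h3] at h1
  apply Complex.ofReal_injective
  push_cast
  push_cast at h1
  exact h1

theorem synth (hm : ∀ k, 0 < m k) (a : ℕ → ℂ) :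
    ∑ x : X m n, ‖∑ i ∈ range (M m n), a i * psi x i‖ ^ 2 ≤
      M m n * ∑ i ∈ range (M m n), ‖a i‖ ^ 2 := by
  set G : X m n → ℂ := fun x => ∑ i ∈ range (M m n), a i * psi x i with hG
  set s := ∑ x, ‖G x‖ ^ 2 with hs
  have hMpos : (0 : ℝ) < M m n := by exact_mod_cast M_pos hm n
  have hM : (M m n : ℂ) ≠ 0 := by exact_mod_cast (M_pos hm n).ne'
  have hs0 : 0 ≤ s := sum_nonneg fun _ _ => by positivity
  have h1 : (s : ℂ) = (M m n : ℂ) * ∑ i ∈ range (M m n), a i * starRingEnd ℂ (coef G i) := by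
    rw [hs]
    push_cast
    have h3 : ∀ w : ℂ, ((‖w‖ : ℂ)) ^ 2 = w * starRingEnd ℂ w := by
      intro w
      rw [Complex.mul_conj, Complex.normSq_eq_norm_sq]
      push_cast
      rfl
    simp only [h3]
    have h4 : ∀ x, G x * starRingEnd ℂ (G x) = ∑ i ∈ range (M m n),
        a i * (psi x i * starRingEnd ℂ (G x)) := by
      intro x
      nth_rewrite 1 [hG]
      rw [sum_mul]
      refine sum_congr rfl fun i _ => ?_
      ring
    simp only [h4]
    rw [sum_comm, mul_sum]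
    refine sum_congr rfl fun i _ => ?_
    unfold coef
    rw [map_mul, map_inv₀, Complex.conj_natCast, map_sum, ← mul_sum]
    simp only [map_mul, Complex.conj_conj]
    field_simp
    rw [mul_sum, mul_sum]
    refine sum_congr rfl fun x _ => ?_
    ring
  have h2 : s ≤ M m n * ∑ i ∈ range (M m n), ‖a i‖ * ‖coef G i‖ := by
    have h3 : s = ‖(s : ℂ)‖ := by rw [Complex.norm_real, Real.norm_of_nonneg hs0]
    rw [h3, h1, norm_mul, Complex.norm_natCast]
    refine mul_le_mul_of_nonneg_left ?_ hMpos.le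
    refine (norm_sum_le _ _).trans (le_of_eq ?_)
    refine sum_congr rfl fun i _ => ?_
    rw [norm_mul, RCLike.norm_conj]
  have h3 := sum_mul_sq_le_sq_mul_sq (range (M m n)) (fun i => ‖a i‖) (fun i => ‖coef G i‖)
  rw [parseval hm G, ← hs] at h3
  rcases hs0.lt_or_eq with hpos | hzero
  · have h4 : s ^ 2 ≤ (M m n) ^ 2 * ((∑ i ∈ range (M m n), ‖a i‖ ^ 2) * ((M m n : ℝ)⁻¹ * s)) := by
      calc s ^ 2 ≤ (M m n * ∑ i ∈ range (M m n), ‖a i‖ * ‖coef G i‖) ^ 2 :=
            pow_le_pow_left₀ hs0 h2 2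
        _ = (M m n) ^ 2 * (∑ i ∈ range (M m n), ‖a i‖ * ‖coef G i‖) ^ 2 := by ring
        _ ≤ _ := mul_le_mul_of_nonneg_left h3 (by positivity)
    have h5 : (M m n : ℝ) ^ 2 * ((∑ i ∈ range (M m n), ‖a i‖ ^ 2) * ((M m n : ℝ)⁻¹ * s)) =
        (M m n * ∑ i ∈ range (M m n), ‖a i‖ ^ 2) * s := by
      field_simp
    rw [h5, sq] at h4
    exact le_of_mul_le_mul_right h4 hpos
  · rw [← hzero]
    positivity

/-- The operator `R_{M_n}` on the finite level. -/
noncomputable def Rop (m : ℕ → ℕ) (n : ℕ) : (X m n → ℂ) →ₗ[ℂ] (X m n → ℂ) where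
  toFun F x := ∑ i ∈ range (M m n), ((1 - l i / l (M m n) : ℝ) : ℂ) * coef F i * psi x i
  map_add' F G := by
    funext x
    simp only [Pi.add_apply]
    rw [← sum_add_distrib]
    refine sum_congr rfl fun i _ => ?_
    have : coef (F + G) i = coef F i + coef G i := by
      unfold coef
      rw [← mul_add, ← sum_add_distrib]
      congr 1
      refine sum_congr rfl fun y _ => ?_
      rw [Pi.add_apply, add_mul]
    rw [this]
    ring
  map_smul' c F := by
    funext x
    simp only [Pi.smul_apply, smul_eq_mul, RingHom.id_apply]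
    rw [mul_sum]
    refine sum_congr rfl fun i _ => ?_
    have : coef (c • F) i = c * coef F i := by
      unfold coef
      have e : ∑ y, (c • F) y * starRingEnd ℂ (psi y i) = c * ∑ y, F y * starRingEnd ℂ (psi y i) := by
        rw [mul_sum]
        refine sum_congr rfl fun y _ => ?_
        rw [Pi.smul_apply, smul_eq_mul, mul_assoc]
      rw [e]
      ring
    rw [this]
    ring

theorem Rop_apply (F : X m n → ℂ) (x : X m n) :
    Rop m n F x = ∑ i ∈ range (M m n), ((1 - l i / l (M m n) : ℝ) : ℂ) * coef F i * psi x i := rfl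

theorem mult_bound (hm : ∀ k, 0 < m k) {i : ℕ} (hi : i < M m n) :
    0 ≤ 1 - l i / l (M m n) ∧ 1 - l i / l (M m n) ≤ 1 := by
  have h1 := l_pos (M_pos hm n)
  have h2 := l_mono hi.le
  have h3 := l_nonneg i
  constructor
  · rw [sub_nonneg, div_le_one h1]
    exact h2
  · have : 0 ≤ l i / l (M m n) := by positivity
    linarith

theorem Rop_l2 (hm : ∀ k, 0 < m k) (F : X m n → ℂ) :
    ∑ x, ‖Rop m n F x‖ ^ 2 ≤ ∑ x, ‖F x‖ ^ 2 := by
  have h1 := synth hm (n := n) (fun i => ((1 - l i / l (M m n) : ℝ) : ℂ) * coef F i)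
  have hMpos : (0 : ℝ) < M m n := by exact_mod_cast M_pos hm n
  refine h1.trans ?_
  have h2 : ∑ i ∈ range (M m n), ‖((1 - l i / l (M m n) : ℝ) : ℂ) * coef F i‖ ^ 2 ≤
      ∑ i ∈ range (M m n), ‖coef F i‖ ^ 2 := by
    refine sum_le_sum fun i hi => ?_
    have h3 := mult_bound hm (mem_range.mp hi)
    refine pow_le_pow_left₀ (norm_nonneg _) ?_ 2
    rw [norm_mul, Complex.norm_real, Real.norm_of_nonneg h3.1]
    exact mul_le_of_le_one_left (norm_nonneg _) h3.2
  refine (mul_le_mul_of_nonneg_left h2 hMpos.le).trans (le_of_eq ?_)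
  rw [parseval hm]
  field_simp

/-- Hölder's inequality in the form needed. -/
theorem holder {α : Type*} (C : Finset α) {g : α → ℝ} (hg : ∀ x, 0 ≤ g x) {lam p : ℝ}
    (hlam : 0 < lam) (hp0 : 0 < p) (hp1 : p ≤ 1) (h : ∑ x ∈ C, g x ^ 2 ≤ lam ^ 2 * C.card) :
    ∑ x ∈ C, g x ^ p ≤ lam ^ p * C.card := by
  have key : ∀ x ∈ C, g x ^ p ≤ lam ^ p * (1 + p / 2 * (g x ^ 2 / lam ^ 2 - 1)) := by
    intro x _
    have h1 := rpow_one_add_le_one_add_mul_self (s := g x ^ 2 / lam ^ 2 - 1) (p := p / 2)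
      (by have : 0 ≤ g x ^ 2 / lam ^ 2 := by positivity
          linarith) (by positivity) (by linarith)
    have h2 : (1 + (g x ^ 2 / lam ^ 2 - 1)) ^ (p / 2) = g x ^ p / lam ^ p := by
      have e1 : 1 + (g x ^ 2 / lam ^ 2 - 1) = (g x / lam) ^ (2 : ℝ) := by
        rw [Real.rpow_two, div_pow]
        ring
      rw [e1, ← Real.rpow_mul (div_nonneg (hg x) hlam.le), mul_div_cancel₀ _ two_ne_zero,
        Real.div_rpow (hg x) hlam.le]
    rw [h2, div_le_iff₀ (by positivity)] at h1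
    linarith
  refine (sum_le_sum key).trans ?_
  rw [← mul_sum]
  refine mul_le_mul_of_nonneg_left ?_ (by positivity)
  have e : ∑ x ∈ C, (1 + p / 2 * (g x ^ 2 / lam ^ 2 - 1)) =
      C.card * (1 - p / 2) + p / 2 / lam ^ 2 * ∑ x ∈ C, g x ^ 2 := by
    rw [mul_sum, ← nsmul_eq_mul, ← sum_const, ← sum_add_distrib]
    refine sum_congr rfl fun x _ => ?_
    field_simp
    ring
  rw [e]
  have h3 : p / 2 / lam ^ 2 * ∑ x ∈ C, g x ^ 2 ≤ p / 2 / lam ^ 2 * (lam ^ 2 * C.card) :=
    mul_le_mul_of_nonneg_left h (by positivity)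
  have h4 : p / 2 / lam ^ 2 * (lam ^ 2 * C.card) = p / 2 * C.card := by
    field_simp
  linarith

end Pool.Agent.R165.Vil
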