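import Pool.Agent.R165.Vil.B

/-!
# Cylinders and the estimate for atoms
-/

namespace Pool.Agent.R165.Vil

open Finset

variable {m : ℕ → ℕ} {n : ℕ}

/-- Cylinders. -/
def cyl (k : ℕ) (x : X m n) : Finset (X m n) :=
  Fintype.piFinset fun j : Fin n => if (j : ℕ) < k then {x j} else univ

theorem mem_cyl {k : ℕ} {x y : X m n} : y ∈ cyl k x ↔ ∀ j : Fin n, (j : ℕ) < k → y j = x j := by
  unfold cyl
  rw [Fintype.mem_piFinset]
  refine forall_congr' fun j => ?_
  split_ifs with h
  · simp [h]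
  · simp [h]

theorem card_cyl (k : ℕ) (x : X m n) :
    (cyl k x).card = ∏ j : Fin n, if (j : ℕ) < k then 1 else m j := by
  unfold cyl
  rw [Fintype.card_piFinset]
  refine prod_congr rfl fun j _ => ?_
  split_ifs <;> simp

theorem M_eq_fin (n : ℕ) : M m n = ∏ j : Fin n, m j := by
  rw [Fin.prod_univ_eq_prod_range (fun j => m j) n]
  rfl

theorem M_eq_fin' {k : ℕ} (hk : k ≤ n) : M m k = ∏ j : Fin n, if (j : ℕ) < k then m j else 1 := by
  rw [Fin.prod_univ_eq_prod_range (fun j => if j < k then m j else 1) n]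
  obtain ⟨c, rfl⟩ := Nat.exists_eq_add_of_le hk
  rw [prod_range_add]
  have h1 : ∏ x ∈ range c, (if k + x < k then m (k + x) else 1) = 1 := by
    refine prod_eq_one fun x _ => ?_
    rw [if_neg (by omega)]
  rw [h1, mul_one]
  unfold M
  refine prod_congr rfl fun j hj => ?_
  rw [if_pos (mem_range.mp hj)]

theorem card_mul {k : ℕ} (hk : k ≤ n) (x : X m n) : M m k * (cyl k x).card = M m n := by
  rw [card_cyl, M_eq_fin' hk, M_eq_fin, ← prod_mul_distrib]
  refine prod_congr rfl fun j _ => ?_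
  split_ifs <;> simp

theorem self_mem (k : ℕ) (x : X m n) : x ∈ cyl k x := mem_cyl.mpr fun _ _ => rfl

theorem cyl_eq {k : ℕ} {x y : X m n} (h : y ∈ cyl k x) : cyl k y = cyl k x := by
  ext z
  rw [mem_cyl, mem_cyl]
  rw [mem_cyl] at h
  refine forall_congr' fun j => imp_congr_right fun hj => ?_
  rw [h j hj]

theorem cyl_mono (k : ℕ) (x : X m n) : cyl (k + 1) x ⊆ cyl k x := by
  intro y hy
  rw [mem_cyl] at hy ⊢
  exact fun j hj => hy j (by omega)

theorem cyl_top (x : X m n) : cyl n x = {x} := by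
  ext y
  rw [mem_cyl, mem_singleton]
  constructor
  · intro h
    exact funext fun j => h j j.2
  · rintro rfl j _
    rfl

theorem vl_cyl {k : ℕ} {x y : X m n} (h : y ∈ cyl k x) {j : ℕ} (hj : j < k) : vl y j = vl x j := by
  unfold vl
  split_ifs with hn
  · rw [mem_cyl.mp h ⟨j, hn⟩ hj]
  · rfl

theorem exists_ne_of_not_mem {k : ℕ} {x y : X m n} (h : y ∉ cyl k x) :
    ∃ j < k, j < n ∧ vl y j ≠ vl x j := by
  rw [mem_cyl] at h
  push Not at h
  obtain ⟨j, hj, hne⟩ := h
  refine ⟨j, hj, j.2, ?_⟩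
  rw [vl_fin, vl_fin]
  exact fun h => hne (Fin.ext h)

/-- `r! ≤ ∏ (N - j)`. -/
theorem fact_le (N : ℕ) : ∀ J : Finset ℕ, J ⊆ range N → J.card.factorial ≤ ∏ j ∈ J, (N - j) := by
  intro J
  induction J using Finset.strongInduction with
  | H J ih =>
    intro hJ
    rcases J.eq_empty_or_nonempty with rfl | hne
    · simp
    · set j0 := J.min' hne with hj0
      have hmem : j0 ∈ J := J.min'_mem hne
      have h1 := ih (J.erase j0) (erase_ssubset hmem) ((erase_subset _ _).trans hJ)
      have h2 : J.card ≤ N - j0 := by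
        have : J ⊆ Ico j0 N := fun j hj =>
          mem_Ico.mpr ⟨J.min'_le j hj, mem_range.mp (hJ hj)⟩
        have := card_le_card this
        rwa [Nat.card_Ico] at this
      have h3 : J.card = (J.erase j0).card + 1 := (card_erase_add_one hmem).symm
      rw [← mul_prod_erase J _ hmem, h3, Nat.factorial_succ, ← h3]
      exact Nat.mul_le_mul h2 h1

/-- The weights. -/
noncomputable def wt (m : ℕ → ℕ) (B N j : ℕ) : ℝ := B * (M m j : ℝ) / M m N * ((N - j : ℕ) : ℝ)

theorem wt_nonneg (B N j : ℕ) : 0 ≤ wt m B N j := by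
  unfold wt
  positivity

theorem kernel_bound (hm : ∀ k, 0 < m k) {B : ℕ} (hB : ∀ k, m k ≤ B) (x y : X m n) (N : ℕ)
    {t : ℝ} (ht0 : 0 ≤ t) (ht1 : t ≤ 1) :
    ‖∑ u ∈ range (M m N), ch m N (rat x y) u * (t : ℂ) ^ u‖ ≤
      (M m N * ∏ j ∈ (range N).filter (fun j => vl x j ≠ vl y j), ((B : ℝ) / 2 * M m j)) *
        (1 - t) ^ ((range N).filter (fun j => vl x j ≠ vl y j)).card := by
  rw [kernel hm, norm_prod]
  have h1 : ∀ j ∈ range N, ‖∑ a ∈ range (m j), (rat x y j * (t : ℂ) ^ M m j) ^ a‖ ≤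
      m j * (if vl x j ≠ vl y j then (B : ℝ) / 2 * M m j * (1 - t) else 1) := by
    intro j _
    have hs0 : 0 ≤ t ^ M m j := by positivity
    have hs1 : t ^ M m j ≤ 1 := pow_le_one₀ ht0 ht1
    have e : ((t : ℂ) ^ M m j) = ((t ^ M m j : ℝ) : ℂ) := by push_cast; rfl
    rw [e]
    split_ifs with h
    · refine (factor_zero (rat_norm x y j) hs0 hs1 (rat_sum hm h)).trans ?_
      have h2 : 1 - t ^ M m j ≤ M m j * (1 - t) := one_sub_pow_le ht0 _
      have h3 : (m j : ℝ) ≤ B := by exact_mod_cast hB j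
      have h4 : (0 : ℝ) ≤ m j := Nat.cast_nonneg _
      have h5 : 0 ≤ 1 - t := by linarith
      calc (m j : ℝ) * m j / 2 * (1 - t ^ M m j) ≤ (m j : ℝ) * B / 2 * (M m j * (1 - t)) := by
            refine mul_le_mul ?_ h2 (by linarith) (by positivity)
            nlinarith
        _ = _ := by ring
    · rw [mul_one]
      exact factor_triv (rat_norm x y j) hs0 hs1 _
  refine (prod_le_prod (fun _ _ => norm_nonneg _) h1).trans (le_of_eq ?_)
  rw [prod_mul_distrib, prod_ite, prod_const_one, mul_one, prod_mul_distrib, prod_const]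
  unfold M
  push_cast
  ring

/-- The inner sums off the cylinder. -/
theorem inner_bound (hm : ∀ k, 0 < m k) {B : ℕ} (hB : ∀ k, m k ≤ B) {x y : X m n} {N : ℕ}
    (hne : ∃ j < N, vl x j ≠ vl y j) {v : ℕ} (hv : 0 < v) :
    ‖∑ u ∈ range (M m N), ch m N (rat x y) u * (l (u + M m N * v) : ℂ)‖ ≤
      M m N / v * ∏ j ∈ (range N).filter (fun j => vl x j ≠ vl y j), wt m B N j := by
  set J := (range N).filter (fun j => vl x j ≠ vl y j) with hJ
  obtain ⟨j0, hj0, hj0'⟩ := hne
  have hJne : J.Nonempty := ⟨j0, mem_filter.mpr ⟨mem_range.mpr hj0, hj0'⟩⟩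
  obtain ⟨r, hr⟩ : ∃ r, J.card = r + 1 := ⟨J.card - 1, by
    have := hJne.card_pos
    omega⟩
  have hMN : (0 : ℝ) < M m N := by exact_mod_cast M_pos hm N
  have hv' : (1 : ℝ) ≤ v := by exact_mod_cast hv
  have hc : ∑ u ∈ range (M m N), ch m N (rat x y) u = 0 := by
    have h1 := kernel hm (rat x y) 1 N
    simp only [one_pow, mul_one] at h1
    rw [h1]
    exact prod_eq_zero (mem_range.mpr hj0) (rat_sum hm hj0')
  have hK : 0 ≤ M m N * ∏ j ∈ J, ((B : ℝ) / 2 * M m j) := by positivity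
  have h1 := Q_bound (c := ch m N (rat x y)) hK (A := M m N) (a := M m N * v) (r := r)
    (Nat.mul_pos (M_pos hm N) hv) hc (fun t ht0 ht1 => by
      have := kernel_bound hm hB x y N ht0 ht1
      rw [← hJ, hr] at this
      exact this)
  refine h1.trans ?_
  have h2 : (r.factorial : ℝ) ≤ ∏ j ∈ J, ((N - j : ℕ) : ℝ) := by
    have h3 := fact_le N J (filter_subset _ _)
    rw [hr] at h3
    have h4 : r.factorial ≤ ∏ j ∈ J, (N - j) := (Nat.factorial_le (Nat.le_succ r)).trans h3
    exact_mod_cast h4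
  have h3 : (2 / ((M m N * v : ℕ) : ℝ)) ^ (r + 1) ≤ (∏ _j ∈ J, (2 / (M m N : ℝ))) * (1 / v) := by
    rw [prod_const, hr]
    push_cast
    have e : (2 / ((M m N : ℝ) * v)) ^ (r + 1) = (2 / (M m N : ℝ)) ^ (r + 1) * (1 / v) ^ (r + 1) := by
      rw [← mul_pow]
      congr 1
      field_simp
    rw [e]
    refine mul_le_mul_of_nonneg_left ?_ (by positivity)
    rw [pow_succ]
    refine mul_le_of_le_one_left (by positivity) (pow_le_one₀ (by positivity) ?_)
    rw [div_le_one (by linarith)]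
    exact hv'
  have h4 : (r.factorial : ℝ) * (2 / ((M m N * v : ℕ) : ℝ)) ^ (r + 1) ≤
      (∏ j ∈ J, ((N - j : ℕ) : ℝ)) * ((∏ _j ∈ J, (2 / (M m N : ℝ))) * (1 / v)) :=
    mul_le_mul h2 h3 (by positivity) (by positivity)
  refine (mul_le_mul_of_nonneg_left h4 hK).trans (le_of_eq ?_)
  have e2 : ∏ j ∈ J, wt m B N j = (∏ j ∈ J, ((B : ℝ) / 2 * M m j)) *
      ((∏ j ∈ J, ((N - j : ℕ) : ℝ)) * ∏ _j ∈ J, (2 / (M m N : ℝ))) := by
    rw [← prod_mul_distrib, ← prod_mul_distrib]
    refine prod_congr rfl fun j _ => ?_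
    unfold wt
    field_simp
  rw [e2]
  ring

theorem l_shift (V : ℕ) : ∑ v ∈ range V, (if v = 0 then (0 : ℝ) else 1 / v) ≤ l V := by
  unfold l
  induction V with
  | zero => simp
  | succ V ih =>
    rw [sum_range_succ']
    rw [if_pos rfl, add_zero]
    have h1 : ∑ k ∈ range V, (if k + 1 = 0 then (0 : ℝ) else 1 / ((k + 1 : ℕ) : ℝ)) =
        ∑ k ∈ range V, 1 / ((k : ℝ) + 1) := by
      refine sum_congr rfl fun k _ => ?_
      rw [if_neg (by omega)]
      push_cast
      rfl
    rw [h1]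
    exact sum_le_sum_of_subset_of_nonneg (range_mono (Nat.le_succ V)) fun _ _ _ => by positivity

/-- The pointwise estimate of `R b` off the cylinder. -/
theorem off_bound (hm : ∀ k, 0 < m k) {B : ℕ} (hB : ∀ k, m k ≤ B) {N : ℕ} (hN : N ≤ n)
    {y0 : X m n} {b : X m n → ℂ} (hsupp : ∀ y, y ∉ cyl N y0 → b y = 0) (hsum : ∑ y, b y = 0)
    {lam : ℝ} (hlam : 0 ≤ lam) (hb : ∀ y, ‖b y‖ ≤ lam) {x : X m n} (hx : x ∉ cyl N y0) :
    ‖Rop m n b x‖ ≤
      lam * ∏ j ∈ (range N).filter (fun j => vl x j ≠ vl y0 j), wt m B N j := by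
  obtain ⟨V, hV⟩ := M_dvd (m := m) hN
  have hMN : (0 : ℝ) < M m N := by exact_mod_cast M_pos hm N
  have hMn : (0 : ℝ) < M m n := by exact_mod_cast M_pos hm n
  have hL := l_pos (M_pos hm n)
  have hVpos : 0 < V := Nat.pos_of_ne_zero fun h => by
    rw [h, mul_zero] at hV
    exact (M_pos hm n).ne' hV
  set W := ∏ j ∈ (range N).filter (fun j => vl x j ≠ vl y0 j), wt m B N j with hW
  have hW0 : 0 ≤ W := prod_nonneg fun j _ => wt_nonneg B N j
  -- the coefficients
  set β : ℕ → ℂ := fun v => (M m n : ℂ)⁻¹ * ∑ y, b y * starRingEnd ℂ (ch m n (zs y) (M m N * v))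
    with hβ
  have hcoef : ∀ u < M m N, ∀ v, coef b (u + M m N * v) =
      starRingEnd ℂ (ch m N (zs y0) u) * β v := by
    intro u hu v
    have e0 : ∑ y, b y * starRingEnd ℂ (psi y (u + M m N * v)) =
        starRingEnd ℂ (ch m N (zs y0) u) *
          ∑ y, b y * starRingEnd ℂ (ch m n (zs y) (M m N * v)) := by
      rw [mul_sum]
      refine sum_congr rfl fun y _ => ?_
      by_cases hy : y ∈ cyl N y0
      · unfold psi
        rw [ch_split hm hN _ hu, map_mul]
        have e : ch m N (zs y) u = ch m N (zs y0) u := ch_congr (fun j hj => by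
          unfold zs
          rw [vl_cyl hy hj]) u
        rw [e]
        ring
      · rw [hsupp y hy]
        ring
    unfold coef
    rw [e0, hβ]
    ring
  have hβ0 : β 0 = 0 := by
    rw [hβ]
    simp only
    have : ∑ y, b y * starRingEnd ℂ (ch m n (zs y) (M m N * 0)) = 0 := by
      rw [← hsum]
      refine sum_congr rfl fun y _ => ?_
      have : ch m n (zs y) (M m N * 0) = 1 := by
        unfold ch
        refine prod_eq_one fun j _ => ?_
        rw [mul_zero, dig_zero, pow_zero]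
      rw [this, map_one, mul_one]
    rw [this, mul_zero]
  have hβn : ∀ v, ‖β v‖ ≤ lam / M m N := by
    intro v
    rw [hβ]
    simp only
    rw [norm_mul, norm_inv, Complex.norm_natCast]
    have h1 : ‖∑ y, b y * starRingEnd ℂ (ch m n (zs y) (M m N * v))‖ ≤ (cyl N y0).card * lam := by
      have h2 : ∑ y, b y * starRingEnd ℂ (ch m n (zs y) (M m N * v)) =
          ∑ y ∈ cyl N y0, b y * starRingEnd ℂ (ch m n (zs y) (M m N * v)) := by
        symm
        refine sum_subset (subset_univ _) fun y _ hy => ?_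
        rw [hsupp y hy, zero_mul]
      rw [h2]
      refine (norm_sum_le _ _).trans ?_
      rw [← nsmul_eq_mul, ← sum_const]
      refine sum_le_sum fun y _ => ?_
      rw [norm_mul, RCLike.norm_conj, ch_norm (fun j _ => zs_norm y j), mul_one]
      exact hb y
    have h3 : (M m N : ℝ) * (cyl N y0).card = M m n := by exact_mod_cast card_mul hN y0
    calc (M m n : ℝ)⁻¹ * ‖∑ y, b y * starRingEnd ℂ (ch m n (zs y) (M m N * v))‖ ≤
          (M m n : ℝ)⁻¹ * ((cyl N y0).card * lam) := mul_le_mul_of_nonneg_left h1 (by positivity)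
      _ = lam / M m N := by
          rw [← h3]
          have h4 : (0 : ℝ) < (cyl N y0).card := by
            by_contra hcon
            have : ((cyl N y0).card : ℝ) = 0 := le_antisymm (not_lt.mp hcon) (Nat.cast_nonneg _)
            rw [this, mul_zero] at h3
            exact hMn.ne h3
          field_simp
  clear_value β
  -- rewriting
  have hR : Rop m n b x = ∑ v ∈ range V, β v * ch m n (zs x) (M m N * v) *
      (-(1 / l (M m n) : ℝ) * ∑ u ∈ range (M m N), ch m N (rat x y0) u *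
        (l (u + M m N * v) : ℂ)) := by
    rw [Rop_apply]
    nth_rewrite 1 [hV]
    rw [sum_range_mul']
    refine sum_congr rfl fun v _ => ?_
    have hc : ∑ u ∈ range (M m N), ch m N (rat x y0) u = 0 := by
      have h1 := kernel hm (rat x y0) 1 N
      simp only [one_pow, mul_one] at h1
      rw [h1]
      obtain ⟨j, hj, -, hne⟩ := exists_ne_of_not_mem hx
      exact prod_eq_zero (mem_range.mpr hj) (rat_sum hm hne)
    have h2 : (-(1 / l (M m n) : ℝ) : ℂ) * ∑ u ∈ range (M m N), ch m N (rat x y0) u *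
        (l (u + M m N * v) : ℂ) = ∑ u ∈ range (M m N), ch m N (rat x y0) u *
        ((1 - l (u + M m N * v) / l (M m n) : ℝ) : ℂ) := by
      have h3 : ∑ u ∈ range (M m N), ch m N (rat x y0) u *
          ((1 - l (u + M m N * v) / l (M m n) : ℝ) : ℂ) =
          ∑ u ∈ range (M m N), ch m N (rat x y0) u - (1 / l (M m n) : ℝ) *
            ∑ u ∈ range (M m N), ch m N (rat x y0) u * (l (u + M m N * v) : ℂ) := by
        rw [mul_sum, ← sum_sub_distrib]
        refine sum_congr rfl fun u _ => ?_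
        push_cast
        ring
      rw [h3, hc, zero_sub, neg_mul]
    rw [h2, mul_sum]
    refine sum_congr rfl fun u hu => ?_
    rw [hcoef u (mem_range.mp hu)]
    unfold psi
    rw [ch_split hm hN _ (mem_range.mp hu)]
    have e : ch m N (rat x y0) u = ch m N (zs x) u * starRingEnd ℂ (ch m N (zs y0) u) := by
      rw [← ch_star, ← ch_mul]
      rfl
    rw [e]
    ring
  rw [hR]
  refine (norm_sum_le _ _).trans ?_
  have hterm : ∀ v ∈ range V, ‖β v * ch m n (zs x) (M m N * v) *
      (-(1 / l (M m n) : ℝ) * ∑ u ∈ range (M m N), ch m N (rat x y0) u *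
        (l (u + M m N * v) : ℂ))‖ ≤ lam * W / l (M m n) * (if v = 0 then (0 : ℝ) else 1 / v) := by
    intro v _
    split_ifs with hv0
    · rw [hv0, hβ0]
      simp
    · obtain ⟨j, hj, -, hne⟩ := exists_ne_of_not_mem hx
      have h1 := inner_bound hm hB (N := N) (x := x) (y := y0) ⟨j, hj, hne⟩
        (Nat.pos_of_ne_zero hv0)
      rw [← hW] at h1
      have hv' : (0 : ℝ) < v := by exact_mod_cast Nat.pos_of_ne_zero hv0
      rw [norm_mul, norm_mul, norm_mul, norm_neg, ch_norm (fun j _ => zs_norm x j), mul_one,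
        Complex.norm_real, Real.norm_of_nonneg (by positivity)]
      calc ‖β v‖ * (1 / l (M m n) * ‖∑ u ∈ range (M m N), ch m N (rat x y0) u *
            (l (u + M m N * v) : ℂ)‖) ≤ (lam / M m N) * (1 / l (M m n) * (M m N / v * W)) := by
            refine mul_le_mul (hβn v) (mul_le_mul_of_nonneg_left h1 (by positivity))
              (by positivity) (by positivity)
        _ = _ := by field_simp
  refine (sum_le_sum hterm).trans ?_
  rw [← mul_sum]
  have h1 : ∑ v ∈ range V, (if v = 0 then (0 : ℝ) else 1 / v) ≤ l (M m n) := by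
    refine (l_shift V).trans (l_mono ?_)
    rw [hV]
    exact Nat.le_mul_of_pos_left _ (M_pos hm N)
  calc lam * W / l (M m n) * ∑ v ∈ range V, (if v = 0 then (0 : ℝ) else 1 / v) ≤
        lam * W / l (M m n) * l (M m n) := mul_le_mul_of_nonneg_left h1 (by positivity)
    _ = lam * W := by field_simp

end Pool.Agent.R165.Vil
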