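import Pool.Agent.R165.Vil.C

/-!
# The atom theorem
-/

namespace Pool.Agent.R165.Vil

open Finset

variable {m : ℕ → ℕ} {n : ℕ}

theorem M_two_pow (h2 : ∀ k, 2 ≤ m k) {j N : ℕ} (h : j ≤ N) : 2 ^ (N - j) * M m j ≤ M m N := by
  obtain ⟨c, rfl⟩ := Nat.exists_eq_add_of_le h
  rw [Nat.add_sub_cancel_left]
  induction c with
  | zero => simp
  | succ c ih =>
    rw [← add_assoc, M_succ, pow_succ]
    calc 2 ^ c * 2 * M m j = (2 ^ c * M m j) * 2 := by ring
      _ ≤ M m (j + c) * m (j + c) := Nat.mul_le_mul (ih (Nat.le_add_right _ _)) (h2 _)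

/-- The summand. -/
noncomputable def gw (B : ℕ) (p : ℝ) (i : ℕ) : ℝ := (B : ℝ) ^ p * (i * ((2 : ℝ) ^ (-p)) ^ i)

theorem gw_nonneg (B : ℕ) (p : ℝ) (i : ℕ) : 0 ≤ gw B p i := by
  unfold gw
  positivity

theorem gw_summable (B : ℕ) {p : ℝ} (hp : 0 < p) : Summable (gw B p) := by
  unfold gw
  refine Summable.mul_left _ ?_
  have h : ‖(2 : ℝ) ^ (-p)‖ < 1 := by
    rw [Real.norm_of_nonneg (by positivity)]
    exact Real.rpow_lt_one_of_one_lt_of_neg (by norm_num) (by linarith)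
  have := summable_pow_mul_geometric_of_norm_lt_one 1 h
  simpa using this

theorem wt_le (h2 : ∀ k, 2 ≤ m k) {B N j : ℕ} (hj : j < N) {p : ℝ} (hp0 : 0 < p) (hp1 : p ≤ 1) :
    wt m B N j ^ p ≤ gw B p (N - j) := by
  have hm : ∀ k, 0 < m k := fun k => lt_of_lt_of_le (by norm_num) (h2 k)
  have h1 : wt m B N j ≤ B * (((N - j : ℕ) : ℝ) * ((2 : ℝ) ^ (N - j))⁻¹) := by
    unfold wt
    have hMN : (0 : ℝ) < M m N := by exact_mod_cast M_pos hm N
    have h3 : (2 : ℝ) ^ (N - j) * M m j ≤ M m N := by exact_mod_cast M_two_pow h2 hj.le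
    have h4 : (M m j : ℝ) / M m N ≤ ((2 : ℝ) ^ (N - j))⁻¹ := by
      rw [div_le_iff₀ hMN, inv_mul_eq_div, le_div_iff₀ (by positivity)]
      linarith
    calc (B : ℝ) * (M m j : ℝ) / M m N * ((N - j : ℕ) : ℝ)
        = B * (((N - j : ℕ) : ℝ) * ((M m j : ℝ) / M m N)) := by ring
      _ ≤ _ := mul_le_mul_of_nonneg_left (mul_le_mul_of_nonneg_left h4 (by positivity))
          (by positivity)
  have h5 : wt m B N j ^ p ≤ (B * (((N - j : ℕ) : ℝ) * ((2 : ℝ) ^ (N - j))⁻¹)) ^ p :=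
    Real.rpow_le_rpow (wt_nonneg B N j) h1 hp0.le
  refine h5.trans ?_
  rw [Real.mul_rpow (by positivity) (by positivity), Real.mul_rpow (by positivity) (by positivity)]
  unfold gw
  refine mul_le_mul_of_nonneg_left ?_ (by positivity)
  have h6 : ((N - j : ℕ) : ℝ) ^ p ≤ ((N - j : ℕ) : ℝ) := by
    have h7 : (1 : ℝ) ≤ ((N - j : ℕ) : ℝ) := by
      have : 1 ≤ N - j := by omega
      exact_mod_cast this
    calc ((N - j : ℕ) : ℝ) ^ p ≤ ((N - j : ℕ) : ℝ) ^ (1 : ℝ) :=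
          Real.rpow_le_rpow_of_exponent_le h7 hp1
      _ = _ := Real.rpow_one _
  have h8 : (((2 : ℝ) ^ (N - j))⁻¹) ^ p = ((2 : ℝ) ^ (-p)) ^ (N - j) := by
    rw [← Real.rpow_natCast, ← Real.rpow_natCast, ← Real.rpow_neg (by norm_num),
      ← Real.rpow_mul (by norm_num), ← Real.rpow_mul (by norm_num)]
    congr 1
    ring
  rw [h8]
  exact mul_le_mul_of_nonneg_right h6 (by positivity)

/-- The constant. -/
noncomputable def Sw (B : ℕ) (p : ℝ) : ℝ := ∑' i, gw B p i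

theorem wt_sum (h2 : ∀ k, 2 ≤ m k) {B : ℕ} (N : ℕ) {p : ℝ} (hp0 : 0 < p) (hp1 : p ≤ 1) :
    ∑ j ∈ range N, wt m B N j ^ p ≤ Sw B p := by
  have h1 : ∑ j ∈ range N, wt m B N j ^ p ≤ ∑ j ∈ range N, gw B p (N - j) :=
    sum_le_sum fun j hj => wt_le h2 (mem_range.mp hj) hp0 hp1
  refine h1.trans ?_
  have h3 : ∑ j ∈ range N, gw B p (N - j) = ∑ j ∈ range N, gw B p (j + 1) := by
    rw [← sum_range_reflect]
    refine sum_congr rfl fun j hj => ?_
    have := mem_range.mp hj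
    congr 1
    omega
  rw [h3]
  have h4 : ∑ j ∈ range N, gw B p (j + 1) ≤ ∑ j ∈ range (N + 1), gw B p j := by
    rw [sum_range_succ']
    linarith [gw_nonneg B p 0]
  exact h4.trans ((gw_summable B hp0).sum_le_tsum _ fun i _ => gw_nonneg B p i)

/-- The sum over all points of the product of weights. -/
theorem sum_weights (h2 : ∀ k, 2 ≤ m k) {B : ℕ} (hB : ∀ k, m k ≤ B) {N : ℕ} (hN : N ≤ n)
    (y0 : X m n) {p : ℝ} (hp0 : 0 < p) (hp1 : p ≤ 1) :
    ∑ x : X m n, ∏ j ∈ (range N).filter (fun j => vl x j ≠ vl y0 j), wt m B N j ^ p ≤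
      (cyl N y0).card * Real.exp (B * Sw B p) := by
  classical
  set φ : (j : Fin n) → Fin (m j) → ℝ := fun j a =>
    if (j : ℕ) < N ∧ (a : ℕ) ≠ vl y0 j then wt m B N j ^ p else 1 with hφ
  have hw0 : ∀ j, 0 ≤ wt m B N j ^ p := fun j => Real.rpow_nonneg (wt_nonneg B N j) p
  have h1 : ∀ x : X m n, ∏ j ∈ (range N).filter (fun j => vl x j ≠ vl y0 j), wt m B N j ^ p =
      ∏ j : Fin n, φ j (x j) := by
    intro x
    have e1 : ∏ j : Fin n, φ j (x j) = ∏ j ∈ range n,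
        (if j < N ∧ vl x j ≠ vl y0 j then wt m B N j ^ p else 1) := by
      rw [← Fin.prod_univ_eq_prod_range]
      refine prod_congr rfl fun j _ => ?_
      rw [hφ]
      simp only
      rw [vl_fin x j]
    rw [e1]
    obtain ⟨c, rfl⟩ := Nat.exists_eq_add_of_le hN
    rw [prod_range_add]
    have e2 : ∏ j ∈ range c, (if N + j < N ∧ vl x (N + j) ≠ vl y0 (N + j) then
        wt m B N (N + j) ^ p else 1) = 1 := by
      refine prod_eq_one fun j _ => ?_
      rw [if_neg (by omega)]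
    rw [e2, mul_one, prod_filter]
    refine prod_congr rfl fun j hj => ?_
    have := mem_range.mp hj
    simp only [this, true_and]
  simp only [h1]
  have h3 : ∑ x : X m n, ∏ j : Fin n, φ j (x j) = ∏ j : Fin n, ∑ a, φ j a := by
    rw [Finset.prod_univ_sum, Fintype.piFinset_univ]
  rw [h3]
  have h4 : ∀ j : Fin n, ∑ a, φ j a ≤ ((if (j : ℕ) < N then 1 else m j : ℕ) : ℝ) *
      (if (j : ℕ) < N then Real.exp (B * wt m B N j ^ p) else 1) := by
    intro j
    rw [hφ]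
    simp only
    split_ifs with hj
    · have e3 : ∑ a : Fin (m j), (if (j : ℕ) < N ∧ (a : ℕ) ≠ vl y0 j then wt m B N j ^ p else 1) ≤
          ∑ a : Fin (m j), ((if a = y0 j then (1 : ℝ) else 0) + wt m B N j ^ p) := by
        refine sum_le_sum fun a _ => ?_
        rw [vl_fin]
        by_cases ha : a = y0 j
        · rw [if_neg (by rw [ha]; simp), if_pos ha]
          linarith [hw0 j]
        · rw [if_pos ⟨hj, fun h => ha (Fin.ext h)⟩, if_neg ha]
          linarith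
      refine e3.trans ?_
      rw [sum_add_distrib, sum_ite_eq' univ (y0 j), if_pos (mem_univ _), sum_const, nsmul_eq_mul]
      have e4 : (Finset.card (univ : Finset (Fin (m j))) : ℝ) ≤ B := by
        rw [Finset.card_univ, Fintype.card_fin]
        exact_mod_cast hB j
      have e5 := Real.add_one_le_exp ((B : ℝ) * wt m B N j ^ p)
      have e6 := mul_le_mul_of_nonneg_right e4 (hw0 j)
      push_cast
      linarith
    · simp [hj]
  have h5 : ∏ j : Fin n, ∑ a, φ j a ≤ ∏ j : Fin n, (((if (j : ℕ) < N then 1 else m j : ℕ) : ℝ) *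
      (if (j : ℕ) < N then Real.exp (B * wt m B N j ^ p) else 1)) := by
    refine prod_le_prod (fun j _ => sum_nonneg fun a _ => ?_) fun j _ => h4 j
    rw [hφ]
    simp only
    split_ifs
    · exact hw0 j
    · norm_num
  refine h5.trans ?_
  rw [prod_mul_distrib, card_cyl]
  have e7 : ∏ j : Fin n, (((if (j : ℕ) < N then 1 else m j : ℕ) : ℝ)) =
      ((∏ j : Fin n, (if (j : ℕ) < N then 1 else m j) : ℕ) : ℝ) := by
    push_cast
    rfl
  rw [e7]
  refine mul_le_mul_of_nonneg_left ?_ (Nat.cast_nonneg _)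
  rw [Fin.prod_univ_eq_prod_range (fun j => if j < N then Real.exp (B * wt m B N j ^ p) else 1) n]
  obtain ⟨c, rfl⟩ := Nat.exists_eq_add_of_le hN
  rw [prod_range_add]
  have e8 : ∏ j ∈ range c, (if N + j < N then Real.exp (B * wt m B N (N + j) ^ p) else 1) = 1 := by
    refine prod_eq_one fun j _ => ?_
    rw [if_neg (by omega)]
  rw [e8, mul_one]
  have e9 : ∏ j ∈ range N, (if j < N then Real.exp (B * wt m B N j ^ p) else 1) =
      Real.exp (∑ j ∈ range N, B * wt m B N j ^ p) := by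
    rw [Real.exp_sum]
    refine prod_congr rfl fun j hj => ?_
    rw [if_pos (mem_range.mp hj)]
  rw [e9, ← mul_sum]
  exact Real.exp_le_exp.mpr (mul_le_mul_of_nonneg_left (wt_sum h2 N hp0 hp1) (Nat.cast_nonneg _))

/-- The constant of the atom theorem. -/
noncomputable def KA (B : ℕ) (p : ℝ) : ℝ := 1 + Real.exp (B * Sw B p)

theorem KA_pos (B : ℕ) (p : ℝ) : 0 < KA B p := by
  unfold KA
  positivity

theorem sum_sq_le {C : Finset (X m n)} {b : X m n → ℂ} (hsupp : ∀ y, y ∉ C → b y = 0) {lam : ℝ}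
    (hb : ∀ y, ‖b y‖ ≤ lam) : ∑ y, ‖b y‖ ^ 2 ≤ lam ^ 2 * C.card := by
  have h1 : ∑ y, ‖b y‖ ^ 2 = ∑ y ∈ C, ‖b y‖ ^ 2 := by
    symm
    refine sum_subset (subset_univ _) fun y _ hy => ?_
    rw [hsupp y hy]
    simp
  rw [h1, mul_comm, ← nsmul_eq_mul, ← sum_const]
  exact sum_le_sum fun y _ => pow_le_pow_left₀ (norm_nonneg _) (hb y) 2

/-- Bound for arbitrary bounded functions. -/
theorem bounded_bound (hm : ∀ k, 0 < m k) {b : X m n → ℂ} {lam p : ℝ} (hlam : 0 < lam)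
    (hp0 : 0 < p) (hp1 : p ≤ 1) (hb : ∀ y, ‖b y‖ ≤ lam) :
    ∑ x, ‖Rop m n b x‖ ^ p ≤ lam ^ p * (univ : Finset (X m n)).card := by
  refine holder univ (fun x => norm_nonneg _) hlam hp0 hp1 ?_
  exact (Rop_l2 hm b).trans (sum_sq_le (fun y hy => absurd (mem_univ y) hy) hb)

/-- The atom theorem. -/
theorem atom (h2 : ∀ k, 2 ≤ m k) {B : ℕ} (hB : ∀ k, m k ≤ B) {N : ℕ} (hN : N ≤ n)
    {y0 : X m n} {b : X m n → ℂ} (hsupp : ∀ y, y ∉ cyl N y0 → b y = 0) (hsum : ∑ y, b y = 0)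
    {lam p : ℝ} (hlam : 0 < lam) (hp0 : 0 < p) (hp1 : p ≤ 1) (hb : ∀ y, ‖b y‖ ≤ lam) :
    ∑ x, ‖Rop m n b x‖ ^ p ≤ KA B p * lam ^ p * (cyl N y0).card := by
  have hm : ∀ k, 0 < m k := fun k => lt_of_lt_of_le (by norm_num) (h2 k)
  have h1 : ∑ x ∈ cyl N y0, ‖Rop m n b x‖ ^ p ≤ lam ^ p * (cyl N y0).card := by
    refine holder _ (fun x => norm_nonneg _) hlam hp0 hp1 ?_
    refine le_trans ?_ ((Rop_l2 hm b).trans (sum_sq_le hsupp hb))
    exact sum_le_sum_of_subset_of_nonneg (subset_univ _) fun _ _ _ => by positivity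
  have h3 : ∑ x ∈ univ.filter (fun x => x ∉ cyl N y0), ‖Rop m n b x‖ ^ p ≤
      lam ^ p * ((cyl N y0).card * Real.exp (B * Sw B p)) := by
    have h4 : ∑ x ∈ univ.filter (fun x => x ∉ cyl N y0), ‖Rop m n b x‖ ^ p ≤
        ∑ x ∈ univ.filter (fun x => x ∉ cyl N y0), lam ^ p *
          ∏ j ∈ (range N).filter (fun j => vl x j ≠ vl y0 j), wt m B N j ^ p := by
      refine sum_le_sum fun x hx => ?_
      have h5 := off_bound hm hB hN hsupp hsum hlam.le hb (mem_filter.mp hx).2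
      rw [Real.finsetProd_rpow _ _ fun j _ => wt_nonneg B N j,
        ← Real.mul_rpow hlam.le (prod_nonneg fun j _ => wt_nonneg B N j)]
      exact Real.rpow_le_rpow (norm_nonneg _) h5 hp0.le
    refine h4.trans ?_
    rw [← mul_sum]
    refine mul_le_mul_of_nonneg_left ?_ (by positivity)
    refine le_trans ?_ (sum_weights h2 hB hN y0 hp0 hp1)
    exact sum_le_sum_of_subset_of_nonneg (subset_univ _) fun x _ _ =>
      prod_nonneg fun j _ => Real.rpow_nonneg (wt_nonneg B N j) p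
  have h4 : ∑ x, ‖Rop m n b x‖ ^ p = ∑ x ∈ cyl N y0, ‖Rop m n b x‖ ^ p +
      ∑ x ∈ univ.filter (fun x => x ∉ cyl N y0), ‖Rop m n b x‖ ^ p := by
    rw [← sum_filter_add_sum_filter_not univ (fun x => x ∈ cyl N y0)]
    congr 1
    refine sum_congr ?_ fun _ _ => rfl
    ext x
    simp
  rw [h4]
  unfold KA
  nlinarith

end Pool.Agent.R165.Vil
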