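import Pool.Agent.R165.Vil.D

/-!
# Atomic decomposition on the finite level
-/

namespace Pool.Agent.R165.Vil

open Finset

variable {m : ℕ → ℕ} {n : ℕ}

theorem cyl_anti {a b : ℕ} (h : a ≤ b) (x : X m n) : cyl b x ⊆ cyl a x := by
  intro y hy
  rw [mem_cyl] at hy ⊢
  exact fun j hj => hy j (by omega)

theorem card_ratio (hm : ∀ k, 0 < m k) {B : ℕ} (hB : ∀ k, m k ≤ B) {k : ℕ} (hk : k < n)
    (x y : X m n) : (cyl k x).card ≤ B * (cyl (k + 1) y).card := by
  have h1 := card_mul hk.le x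
  have h2 := card_mul (show k + 1 ≤ n from hk) y
  rw [M_succ, ← h1, mul_assoc] at h2
  have h3 := Nat.eq_of_mul_eq_mul_left (M_pos hm k) h2
  rw [← h3]
  exact Nat.mul_le_mul_right _ (hB k)

theorem card_pos' (k : ℕ) (x : X m n) : 0 < (cyl k x).card := card_pos.mpr ⟨x, self_mem k x⟩

/-- Averages over cylinders. -/
noncomputable def Ek (k : ℕ) (F : X m n → ℂ) (x : X m n) : ℂ :=
  (∑ y ∈ cyl k x, F y) / (cyl k x).card

theorem Ek_congr {k : ℕ} {x y : X m n} (h : y ∈ cyl k x) (F : X m n → ℂ) : Ek k F y = Ek k F x := by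
  unfold Ek
  rw [cyl_eq h]

theorem Ek_top (F : X m n → ℂ) (x : X m n) : Ek n F x = F x := by
  unfold Ek
  rw [cyl_top]
  simp

/-- Level `k` is exceeded by a child. -/
def Ex (F : X m n → ℂ) (lam : ℝ) (k : ℕ) (x : X m n) : Prop :=
  ∃ y ∈ cyl k x, lam < ‖Ek (k + 1) F y‖

/-- The stopping time. -/
noncomputable def nu (F : X m n → ℂ) (lam : ℝ) (x : X m n) : ℕ := sInf {k | k = n ∨ Ex F lam k x}

theorem nu_le (F : X m n → ℂ) (lam : ℝ) (x : X m n) : nu F lam x ≤ n := Nat.sInf_le (Or.inl rfl)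

theorem nu_spec (F : X m n → ℂ) (lam : ℝ) (x : X m n) :
    nu F lam x = n ∨ Ex F lam (nu F lam x) x :=
  Nat.sInf_mem (s := {k | k = n ∨ Ex F lam k x}) ⟨n, Or.inl rfl⟩

theorem not_ex {F : X m n → ℂ} {lam : ℝ} {x : X m n} {k : ℕ} (h : k < nu F lam x) :
    ¬Ex F lam k x := fun h1 => Nat.notMem_of_lt_sInf h (Or.inr h1)

theorem ex_congr {F : X m n → ℂ} {lam : ℝ} {k : ℕ} {x y : X m n} (h : y ∈ cyl k x) :
    Ex F lam k y ↔ Ex F lam k x := by
  unfold Ex
  rw [cyl_eq h]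

theorem nu_congr {F : X m n → ℂ} {lam : ℝ} {x y : X m n} (h : y ∈ cyl (nu F lam x) x) :
    nu F lam y = nu F lam x := by
  refine le_antisymm (Nat.sInf_le ?_) ?_
  · rcases nu_spec F lam x with h1 | h1
    · exact Or.inl h1
    · exact Or.inr ((ex_congr h).mpr h1)
  · by_contra hlt
    push Not at hlt
    rcases nu_spec F lam y with h1 | h1
    · have := nu_le F lam x
      omega
    · exact not_ex hlt ((ex_congr (cyl_anti hlt.le x h)).mp h1)

theorem nu_mono {F : X m n → ℂ} {lam lam' : ℝ} (h : lam ≤ lam') (x : X m n) :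
    nu F lam x ≤ nu F lam' x := by
  refine Nat.sInf_le ?_
  rcases nu_spec F lam' x with h1 | ⟨y, hy, h1⟩
  · exact Or.inl h1
  · exact Or.inr ⟨y, hy, h.trans_lt h1⟩

/-- The stopped function. -/
noncomputable def gs (F : X m n → ℂ) (lam : ℝ) (x : X m n) : ℂ := Ek (nu F lam x) F x

theorem gs_bound {F : X m n → ℂ} (h0 : ∀ x, Ek 0 F x = 0) {lam : ℝ} (hlam : 0 ≤ lam) (x : X m n) :
    ‖gs F lam x‖ ≤ lam := by
  unfold gs
  rcases Nat.eq_zero_or_pos (nu F lam x) with h | h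
  · rw [h, h0, norm_zero]
    exact hlam
  · obtain ⟨k, hk⟩ : ∃ k, nu F lam x = k + 1 := ⟨nu F lam x - 1, by omega⟩
    have h1 := not_ex (F := F) (lam := lam) (x := x) (k := k) (by omega)
    unfold Ex at h1
    push Not at h1
    rw [hk]
    exact h1 x (self_mem k x)

/-- Optional stopping. -/
theorem stopping {ν : X m n → ℕ} (hν : ∀ x y, y ∈ cyl (ν x) x → ν y = ν x) {k : ℕ} {x0 : X m n}
    (hk : ∀ y ∈ cyl k x0, k ≤ ν y) (F : X m n → ℂ) :
    ∑ y ∈ cyl k x0, Ek (ν y) F y = ∑ y ∈ cyl k x0, F y := by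
  classical
  have hsym : ∀ y w, w ∈ cyl (ν y) y → cyl (ν w) w = cyl (ν y) y := by
    intro y w hw
    rw [hν y w hw, cyl_eq hw]
  have hiff : ∀ y w, w ∈ cyl (ν y) y ↔ y ∈ cyl (ν w) w := by
    intro y w
    constructor
    · intro h
      rw [hsym y w h]
      exact self_mem _ _
    · intro h
      rw [hsym w y h]
      exact self_mem _ _
  have h1 : ∀ y ∈ cyl k x0, Ek (ν y) F y = ∑ w ∈ cyl k x0,
      if w ∈ cyl (ν y) y then F w / (cyl (ν y) y).card else 0 := by
    intro y hy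
    rw [← sum_filter]
    have h2 : (cyl k x0).filter (fun w => w ∈ cyl (ν y) y) = cyl (ν y) y := by
      ext w
      rw [mem_filter]
      constructor
      · exact fun h => h.2
      · intro h
        refine ⟨?_, h⟩
        have := cyl_anti (hk y hy) y h
        rwa [cyl_eq hy] at this
    rw [h2]
    unfold Ek
    rw [sum_div]
  rw [sum_congr rfl h1, sum_comm]
  refine sum_congr rfl fun w hw => ?_
  have h2 : ∀ y ∈ cyl k x0, (if w ∈ cyl (ν y) y then F w / (cyl (ν y) y).card else 0) =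
      if y ∈ cyl (ν w) w then F w / (cyl (ν w) w).card else 0 := by
    intro y _
    by_cases h : w ∈ cyl (ν y) y
    · rw [if_pos h, if_pos ((hiff y w).mp h), hsym y w h]
    · rw [if_neg h, if_neg (fun h' => h ((hiff y w).mpr h'))]
  rw [sum_congr rfl h2, ← sum_filter]
  have h3 : (cyl k x0).filter (fun y => y ∈ cyl (ν w) w) = cyl (ν w) w := by
    ext y
    rw [mem_filter]
    constructor
    · exact fun h => h.2
    · intro h
      refine ⟨?_, h⟩
      have := cyl_anti (hk w hw) w h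
      rwa [cyl_eq hw] at this
  rw [h3, sum_const, nsmul_eq_mul]
  have h4 : ((cyl (ν w) w).card : ℂ) ≠ 0 := by exact_mod_cast (card_pos' (ν w) w).ne'
  field_simp

theorem rpow_sum_le {ι : Type*} (s : Finset ι) {f : ι → ℝ} (hf : ∀ i, 0 ≤ f i) {p : ℝ}
    (hp0 : 0 < p) (hp1 : p ≤ 1) : (∑ i ∈ s, f i) ^ p ≤ ∑ i ∈ s, f i ^ p := by
  classical
  induction s using Finset.induction with
  | empty => simp [Real.zero_rpow hp0.ne']
  | insert a s ha ih =>
    rw [sum_insert ha, sum_insert ha]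
    exact (Real.rpow_add_le_add_rpow (hf a) (sum_nonneg fun i _ => hf i) hp0.le hp1).trans
      (add_le_add_right ih _)

theorem Rop_sum_le {ι : Type*} (s : Finset ι) (b : ι → X m n → ℂ) {p : ℝ} (hp0 : 0 < p)
    (hp1 : p ≤ 1) : ∑ x, ‖Rop m n (∑ i ∈ s, b i) x‖ ^ p ≤ ∑ i ∈ s, ∑ x, ‖Rop m n (b i) x‖ ^ p := by
  rw [sum_comm]
  refine sum_le_sum fun x _ => ?_
  rw [map_sum, Finset.sum_apply]
  refine le_trans (Real.rpow_le_rpow (norm_nonneg _) (norm_sum_le _ _) hp0.le) ?_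
  exact rpow_sum_le s (fun i => norm_nonneg _) hp0 hp1

/-- One level of the decomposition. -/
theorem level (h2 : ∀ k, 2 ≤ m k) {B : ℕ} (hB : ∀ k, m k ≤ B) {F : X m n → ℂ}
    (h0 : ∀ x, Ek 0 F x = 0) {A : X m n → ℝ} (hA : ∀ k ≤ n, ∀ x, ‖Ek k F x‖ ≤ A x)
    {lam p : ℝ} (hlam : 0 < lam) (hp0 : 0 < p) (hp1 : p ≤ 1) :
    ∑ x, ‖Rop m n (gs F (2 * lam) - gs F lam) x‖ ^ p ≤
      KA B p * (3 * lam) ^ p * (B * ((univ.filter (fun x => lam < A x)).card : ℝ)) := by
  classical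
  have hm : ∀ k, 0 < m k := fun k => lt_of_lt_of_le (by norm_num) (h2 k)
  set b := gs F (2 * lam) - gs F lam with hb
  set 𝒞 : Finset (Finset (X m n)) := (univ.filter (fun x => nu F lam x < n)).image
    (fun x => cyl (nu F lam x) x) with h𝒞
  have hmem : ∀ C ∈ 𝒞, ∃ x, nu F lam x < n ∧ C = cyl (nu F lam x) x := by
    intro C hC
    obtain ⟨x, hx, rfl⟩ := mem_image.mp hC
    exact ⟨x, (mem_filter.mp hx).2, rfl⟩
  have huniq : ∀ C ∈ 𝒞, ∀ z ∈ C, C = cyl (nu F lam z) z ∧ nu F lam z < n := by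
    intro C hC z hz
    obtain ⟨x, hx, rfl⟩ := hmem C hC
    rw [nu_congr hz, cyl_eq hz]
    exact ⟨rfl, hx⟩
  have hbz : ∀ z, ¬nu F lam z < n → b z = 0 := by
    intro z hz
    have h3 : nu F lam z = n := le_antisymm (nu_le F lam z) (not_lt.mp hz)
    have h4 : nu F (2 * lam) z = n := by
      exact le_antisymm (nu_le F _ z) (h3.symm.le.trans (nu_mono (by linarith) z))
    rw [hb, Pi.sub_apply]
    unfold gs
    rw [h3, h4, sub_self]
  have hbb : ∀ z, ‖b z‖ ≤ 3 * lam := by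
    intro z
    have h3 := gs_bound h0 hlam.le z
    have h4 := gs_bound h0 (lam := 2 * lam) (by linarith) z
    have h5 := norm_sub_le (gs F (2 * lam) z) (gs F lam z)
    rw [hb, Pi.sub_apply]
    linarith
  have hdec : b = ∑ C ∈ 𝒞, fun z => if z ∈ C then b z else 0 := by
    funext z
    rw [Finset.sum_apply]
    by_cases hz : nu F lam z < n
    · rw [sum_eq_single (cyl (nu F lam z) z)]
      · rw [if_pos (self_mem _ _)]
      · intro C hC hne
        rw [if_neg fun hzC => hne (huniq C hC z hzC).1]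
      · intro h
        exact absurd (mem_image.mpr ⟨z, mem_filter.mpr ⟨mem_univ _, hz⟩, rfl⟩) h
    · symm
      rw [hbz z hz]
      exact sum_eq_zero fun C _ => by split_ifs <;> rfl
  have hatom : ∀ C ∈ 𝒞, ∑ x, ‖Rop m n (fun z => if z ∈ C then b z else 0) x‖ ^ p ≤
      KA B p * (3 * lam) ^ p * C.card := by
    intro C hC
    obtain ⟨x, hx, rfl⟩ := hmem C hC
    refine atom h2 hB (nu_le F lam x) (fun y hy => if_neg hy) ?_ (by linarith) hp0 hp1 ?_
    · rw [← sum_filter]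
      have e : univ.filter (fun z => z ∈ cyl (nu F lam x) x) = cyl (nu F lam x) x := by
        ext z
        simp
      rw [e, hb]
      simp only [Pi.sub_apply, sum_sub_distrib]
      have h5 : ∑ y ∈ cyl (nu F lam x) x, gs F (2 * lam) y = ∑ y ∈ cyl (nu F lam x) x, F y :=
        stopping (fun x y h => nu_congr h) (fun y hy => by
          rw [← nu_congr hy]
          exact nu_mono (by linarith) y) F
      have h6 : ∑ y ∈ cyl (nu F lam x) x, gs F lam y = ∑ y ∈ cyl (nu F lam x) x, F y :=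
        stopping (fun x y h => nu_congr h) (fun y hy => (nu_congr hy).ge) F
      rw [h5, h6, sub_self]
    · intro y
      split_ifs
      · exact hbb y
      · rw [norm_zero]
        linarith
  have hcard : ∀ C ∈ 𝒞, (C.card : ℝ) ≤ B * ((C.filter (fun x => lam < A x)).card : ℝ) := by
    intro C hC
    obtain ⟨x, hx, rfl⟩ := hmem C hC
    rcases nu_spec F lam x with h3 | ⟨y, hy, h3⟩
    · omega
    · have h4 := card_ratio hm hB hx x y
      have h5 : cyl (nu F lam x + 1) y ⊆ (cyl (nu F lam x) x).filter (fun x => lam < A x) := by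
        intro w hw
        rw [mem_filter]
        constructor
        · have := cyl_mono _ _ hw
          rwa [cyl_eq hy] at this
        · refine lt_of_lt_of_le h3 ?_
          rw [← Ek_congr hw]
          exact hA _ hx w
      have h6 := card_le_card h5
      have h7 : (cyl (nu F lam x) x).card ≤
          B * ((cyl (nu F lam x) x).filter (fun x => lam < A x)).card :=
        h4.trans (Nat.mul_le_mul_left _ h6)
      exact_mod_cast h7
  have hdisj : ∑ C ∈ 𝒞, ((C.filter (fun x => lam < A x)).card : ℝ) ≤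
      ((univ.filter (fun x => lam < A x)).card : ℝ) := by
    have h3 : ∑ C ∈ 𝒞, (C.filter (fun x => lam < A x)).card =
        (𝒞.biUnion fun C => C.filter (fun x => lam < A x)).card := by
      rw [card_biUnion]
      intro C hC C' hC' hne
      rw [Function.onFun, disjoint_left]
      intro z hz hz'
      exact hne ((huniq C hC z (mem_filter.mp hz).1).1.trans
        (huniq C' hC' z (mem_filter.mp hz').1).1.symm)
    have h4 : (𝒞.biUnion fun C => C.filter (fun x => lam < A x)).card ≤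
        (univ.filter (fun x => lam < A x)).card := by
      refine card_le_card fun z hz => ?_
      obtain ⟨C, -, hzC⟩ := mem_biUnion.mp hz
      exact mem_filter.mpr ⟨mem_univ _, (mem_filter.mp hzC).2⟩
    rw [← h3] at h4
    exact_mod_cast h4
  have hK : 0 ≤ KA B p * (3 * lam) ^ p := by
    have := KA_pos B p
    positivity
  calc ∑ x, ‖Rop m n b x‖ ^ p = ∑ x, ‖Rop m n (∑ C ∈ 𝒞, fun z => if z ∈ C then b z else 0) x‖ ^ p := by
        rw [← hdec]
    _ ≤ ∑ C ∈ 𝒞, ∑ x, ‖Rop m n (fun z => if z ∈ C then b z else 0) x‖ ^ p :=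
        Rop_sum_le 𝒞 _ hp0 hp1
    _ ≤ ∑ C ∈ 𝒞, KA B p * (3 * lam) ^ p * C.card := sum_le_sum hatom
    _ ≤ ∑ C ∈ 𝒞, KA B p * (3 * lam) ^ p * (B * ((C.filter (fun x => lam < A x)).card : ℝ)) :=
        sum_le_sum fun C hC => mul_le_mul_of_nonneg_left (hcard C hC) hK
    _ = KA B p * (3 * lam) ^ p * (B * ∑ C ∈ 𝒞, ((C.filter (fun x => lam < A x)).card : ℝ)) := by
        rw [mul_sum, mul_sum]
    _ ≤ _ := mul_le_mul_of_nonneg_left (mul_le_mul_of_nonneg_left hdisj (Nat.cast_nonneg _)) hK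

theorem exists_small (s : Finset ℝ) : ∃ δ > 0, ∀ r ∈ s, 0 < r → δ < r := by
  classical
  induction s using Finset.induction with
  | empty => exact ⟨1, one_pos, fun r hr => absurd hr (notMem_empty r)⟩
  | insert a s _ ih =>
    obtain ⟨δ, hδ, h⟩ := ih
    by_cases ha : 0 < a
    · refine ⟨min δ (a / 2), lt_min hδ (by positivity), fun r hr hr0 => ?_⟩
      rcases mem_insert.mp hr with rfl | hr
      · exact lt_of_le_of_lt (min_le_right _ _) (by linarith)
      · exact lt_of_le_of_lt (min_le_left _ _) (h r hr hr0)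
    · refine ⟨δ, hδ, fun r hr hr0 => ?_⟩
      rcases mem_insert.mp hr with rfl | hr
      · exact absurd hr0 ha
      · exact h r hr hr0

/-- The geometric sum over the levels below `A`. -/
theorem geo_levels {lam0 p : ℝ} (hlam : 0 < lam0) (hp0 : 0 < p) {A : ℝ} (hA : 0 ≤ A) (L : ℕ) :
    ∑ i ∈ range L, (if lam0 * 2 ^ i < A then (lam0 * 2 ^ i) ^ p else 0) ≤
      (min A (lam0 * 2 ^ L / 2)) ^ p / (1 - 2 ^ (-p)) := by
  have hq : (2 : ℝ) ^ (-p) < 1 := Real.rpow_lt_one_of_one_lt_of_neg (by norm_num) (by linarith)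
  have hq1 : 0 < 1 - (2 : ℝ) ^ (-p) := by linarith
  induction L with
  | zero =>
    rw [range_zero, sum_empty]
    have : 0 ≤ min A (lam0 * 2 ^ 0 / 2) := le_min hA (by positivity)
    positivity
  | succ L ih =>
    rw [sum_range_succ]
    have e1 : lam0 * 2 ^ (L + 1) / 2 = lam0 * 2 ^ L := by
      rw [pow_succ]
      ring
    rw [e1]
    split_ifs with h
    · rw [min_eq_right h.le]
      have h1 : (min A (lam0 * 2 ^ L / 2)) ^ p ≤ (lam0 * 2 ^ L / 2) ^ p :=
        Real.rpow_le_rpow (le_min hA (by positivity)) (min_le_right _ _) hp0.le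
      have h2 : (lam0 * 2 ^ L / 2) ^ p = (lam0 * 2 ^ L) ^ p * 2 ^ (-p) := by
        rw [Real.div_rpow (by positivity) (by norm_num), Real.rpow_neg (by norm_num)]
        rfl
      rw [h2] at h1
      have h3 := ih.trans (div_le_div_of_nonneg_right h1 hq1.le)
      have h4 : (lam0 * 2 ^ L) ^ p / (1 - 2 ^ (-p)) =
          (lam0 * 2 ^ L) ^ p * 2 ^ (-p) / (1 - 2 ^ (-p)) + (lam0 * 2 ^ L) ^ p := by
        field_simp
        ring
      rw [h4]
      linarith
    · rw [add_zero]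
      refine ih.trans (div_le_div_of_nonneg_right ?_ hq1.le)
      refine Real.rpow_le_rpow (le_min hA (by positivity)) ?_ hp0.le
      refine min_le_min_left _ ?_
      have : (0 : ℝ) < lam0 * 2 ^ L := by positivity
      linarith

/-- The constant. -/
noncomputable def KB (B : ℕ) (p : ℝ) : ℝ := KA B p * 3 ^ p * B / (1 - 2 ^ (-p))

theorem KB_nonneg (B : ℕ) {p : ℝ} (hp0 : 0 < p) : 0 ≤ KB B p := by
  have hq : (2 : ℝ) ^ (-p) < 1 := Real.rpow_lt_one_of_one_lt_of_neg (by norm_num) (by linarith)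
  have hq1 : 0 < 1 - (2 : ℝ) ^ (-p) := by linarith
  have := KA_pos B p
  unfold KB
  positivity

theorem centered (h2 : ∀ k, 2 ≤ m k) {B : ℕ} (hB : ∀ k, m k ≤ B) {F : X m n → ℂ}
    (h0 : ∀ x, Ek 0 F x = 0) {A : X m n → ℝ} (hA : ∀ k ≤ n, ∀ x, ‖Ek k F x‖ ≤ A x)
    {p : ℝ} (hp0 : 0 < p) (hp1 : p ≤ 1) :
    ∑ x, ‖Rop m n F x‖ ^ p ≤ KB B p * ∑ x, A x ^ p := by
  classical
  have hA0 : ∀ x, 0 ≤ A x := fun x => (norm_nonneg _).trans (hA n le_rfl x)
  set S : Finset ℝ := (range (n + 1) ×ˢ (univ : Finset (X m n))).image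
    (fun q => ‖Ek q.1 F q.2‖) with hS
  have hmemS : ∀ k ≤ n, ∀ x, ‖Ek k F x‖ ∈ S := fun k hk x =>
    mem_image.mpr ⟨(k, x), mem_product.mpr ⟨mem_range.mpr (by omega), mem_univ _⟩, rfl⟩
  obtain ⟨lam0, hlam0, hsmall⟩ := exists_small S
  obtain ⟨U, hU⟩ := S.bddAbove
  obtain ⟨L, hL⟩ : ∃ L : ℕ, U ≤ lam0 * 2 ^ L := by
    obtain ⟨L, hL⟩ := pow_unbounded_of_one_lt (U / lam0) (show (1 : ℝ) < 2 by norm_num)
    refine ⟨L, ?_⟩
    rw [div_lt_iff₀ hlam0] at hL
    linarith
  have hg0 : gs F lam0 = 0 := by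
    funext x
    have h3 := gs_bound h0 hlam0.le x
    have h4 := hmemS _ (nu_le F lam0 x) x
    change ‖gs F lam0 x‖ ∈ S at h4
    by_contra hne
    have h5 := hsmall _ h4 (norm_pos_iff.mpr hne)
    linarith
  have hgL : gs F (lam0 * 2 ^ L) = F := by
    funext x
    have h3 : nu F (lam0 * 2 ^ L) x = n := by
      rcases nu_spec F (lam0 * 2 ^ L) x with h | ⟨y, hy, h⟩
      · exact h
      · by_contra hne
        have h4 : nu F (lam0 * 2 ^ L) x + 1 ≤ n :=
          lt_of_le_of_ne (nu_le F _ x) hne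
        have h5 := hU (hmemS _ h4 y)
        linarith
    unfold gs
    rw [h3, Ek_top]
  have htel : F = ∑ i ∈ range L, (gs F (lam0 * 2 ^ (i + 1)) - gs F (lam0 * 2 ^ i)) := by
    rw [sum_range_sub (fun i => gs F (lam0 * 2 ^ i)), pow_zero, mul_one, hg0, sub_zero, hgL]
  have hstep : ∀ i, ∑ x, ‖Rop m n (gs F (lam0 * 2 ^ (i + 1)) - gs F (lam0 * 2 ^ i)) x‖ ^ p ≤
      KA B p * 3 ^ p * B * ∑ x, (if lam0 * 2 ^ i < A x then (lam0 * 2 ^ i) ^ p else 0) := by
    intro i
    have h3 := level h2 hB h0 hA (lam := lam0 * 2 ^ i) (by positivity) hp0 hp1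
    have e1 : 2 * (lam0 * 2 ^ i) = lam0 * 2 ^ (i + 1) := by
      rw [pow_succ]
      ring
    rw [e1] at h3
    refine h3.trans (le_of_eq ?_)
    rw [← sum_filter, sum_const, nsmul_eq_mul, Real.mul_rpow (by norm_num) (by positivity)]
    ring
  calc ∑ x, ‖Rop m n F x‖ ^ p
      = ∑ x, ‖Rop m n (∑ i ∈ range L, (gs F (lam0 * 2 ^ (i + 1)) - gs F (lam0 * 2 ^ i))) x‖ ^ p := by
        rw [← htel]
    _ ≤ ∑ i ∈ range L, ∑ x,
        ‖Rop m n (gs F (lam0 * 2 ^ (i + 1)) - gs F (lam0 * 2 ^ i)) x‖ ^ p :=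
        Rop_sum_le _ _ hp0 hp1
    _ ≤ ∑ i ∈ range L, KA B p * 3 ^ p * B *
        ∑ x, (if lam0 * 2 ^ i < A x then (lam0 * 2 ^ i) ^ p else 0) :=
        sum_le_sum fun i _ => hstep i
    _ = KA B p * 3 ^ p * B * ∑ x, ∑ i ∈ range L,
        (if lam0 * 2 ^ i < A x then (lam0 * 2 ^ i) ^ p else 0) := by
        rw [← mul_sum, sum_comm]
    _ ≤ KA B p * 3 ^ p * B * ∑ x, A x ^ p / (1 - 2 ^ (-p)) := by
        have hq : (2 : ℝ) ^ (-p) < 1 :=
          Real.rpow_lt_one_of_one_lt_of_neg (by norm_num) (by linarith)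
        have hK := KA_pos B p
        refine mul_le_mul_of_nonneg_left (sum_le_sum fun x _ => ?_) (by positivity)
        refine (geo_levels hlam0 hp0 (hA0 x) L).trans ?_
        refine div_le_div_of_nonneg_right ?_ (by linarith)
        exact Real.rpow_le_rpow (le_min (hA0 x) (by positivity)) (min_le_left _ _) hp0.le
    _ = _ := by
        unfold KB
        rw [← sum_div]
        ring

/-- The main theorem on the finite level. -/
theorem finite_main (h2 : ∀ k, 2 ≤ m k) {B : ℕ} (hB : ∀ k, m k ≤ B) (F : X m n → ℂ)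
    {A : X m n → ℝ} (hA : ∀ k ≤ n, ∀ x, ‖Ek k F x‖ ≤ A x)
    {p : ℝ} (hp0 : 0 < p) (hp1 : p ≤ 1) :
    ∑ x, ‖Rop m n F x‖ ^ p ≤ (1 + KB B p * 2 ^ p) * ∑ x, A x ^ p := by
  classical
  have hm : ∀ k, 0 < m k := fun k => lt_of_lt_of_le (by norm_num) (h2 k)
  have hA0 : ∀ x, 0 ≤ A x := fun x => (norm_nonneg _).trans (hA n le_rfl x)
  rcases isEmpty_or_nonempty (X m n) with hX | ⟨⟨x0⟩⟩
  · simp
  set c := Ek 0 F x0 with hc
  have hcyl0 : ∀ x : X m n, cyl 0 x = univ := by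
    intro x
    ext y
    simp [mem_cyl]
  have hcx : ∀ x, Ek 0 F x = c := by
    intro x
    rw [hc]
    exact (Ek_congr (by rw [hcyl0]; exact mem_univ _) F)
  have hdec : F = ∑ i : Fin 2, (![fun _ => c, fun x => F x - c] i : X m n → ℂ) := by
    rw [Fin.sum_univ_two]
    funext x
    simp
  have hEsub : ∀ k x, Ek k (fun x => F x - c) x = Ek k F x - c := by
    intro k x
    unfold Ek
    rw [sum_sub_distrib, sum_const, nsmul_eq_mul, sub_div]
    have h4 : ((cyl k x).card : ℂ) ≠ 0 := by exact_mod_cast (card_pos' k x).ne'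
    field_simp
  have h3 : ∑ x, ‖Rop m n (fun x => F x - c) x‖ ^ p ≤ KB B p * ∑ x, (2 * A x) ^ p := by
    refine centered h2 hB (fun x => by rw [hEsub, hcx, sub_self]) (fun k hk x => ?_) hp0 hp1
    rw [hEsub]
    refine (norm_sub_le _ _).trans ?_
    have h4 := hA k hk x
    have h5 := hA 0 (Nat.zero_le _) x
    rw [hcx] at h5
    linarith
  have h4 : ∑ x, ‖Rop m n (fun _ => c) x‖ ^ p ≤ ∑ x, A x ^ p := by
    rcases eq_or_ne c 0 with h0 | h0
    · have e : (fun _ : X m n => c) = 0 := by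
        funext x
        exact h0
      rw [e, map_zero]
      refine sum_le_sum fun x _ => ?_
      rw [Pi.zero_apply, norm_zero]
      exact Real.rpow_le_rpow le_rfl (hA0 x) hp0.le
    · have h5 := bounded_bound hm (b := fun _ : X m n => c) (norm_pos_iff.mpr h0) hp0 hp1
        (fun _ => le_rfl)
      refine h5.trans ?_
      rw [mul_comm, ← nsmul_eq_mul, ← sum_const]
      refine sum_le_sum fun x _ => Real.rpow_le_rpow (norm_nonneg _) ?_ hp0.le
      rw [← hcx x]
      exact hA 0 (Nat.zero_le _) x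
  have h5 : ∑ x, ‖Rop m n F x‖ ^ p ≤
      ∑ i : Fin 2, ∑ x, ‖Rop m n (![fun _ => c, fun x => F x - c] i : X m n → ℂ) x‖ ^ p := by
    nth_rewrite 1 [hdec]
    exact Rop_sum_le univ _ hp0 hp1
  rw [Fin.sum_univ_two] at h5
  simp only [Matrix.cons_val_zero, Matrix.cons_val_one] at h5
  have h6 : KB B p * ∑ x, (2 * A x) ^ p = KB B p * 2 ^ p * ∑ x, A x ^ p := by
    have e : ∑ x, (2 * A x) ^ p = 2 ^ p * ∑ x, A x ^ p := by
      rw [mul_sum]
      refine sum_congr rfl fun x _ => ?_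
      exact Real.mul_rpow (by norm_num) (hA0 x)
    rw [e]
    ring
  rw [h6] at h3
  linarith

end Pool.Agent.R165.Vil
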