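import Pool.Agent.R165.Vil.E

/-!
# The Vilenkin group, martingales and the Riesz logarithmic means
-/

namespace Pool.Agent.R165.Vil

open Filter Topology MeasureTheory Set
open scoped ENNReal NNReal

/-- The Vilenkin group `G_m = ∏ ℤ_{m_k}` (as a set; coordinates `0, ..., m_k - 1`). -/
abbrev G (m : ℕ → ℕ) := (k : ℕ) → Fin (m k)

section
variable {m : ℕ → ℕ}

/-- The interval `I_n(x) = {y : y_j = x_j for j < n}`. -/
def I (n : ℕ) (x : G m) : Set (G m) := {y | ∀ j < n, y j = x j}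

/-- Projection on the first `n` coordinates. -/
def pr (n : ℕ) (x : G m) : X m n := fun j => x j

theorem pr_meas (n : ℕ) : Measurable (pr (m := m) n) :=
  measurable_pi_lambda _ fun j => measurable_pi_apply (j : ℕ)

theorem pr_eq_iff {n : ℕ} {x y : G m} : pr n y = pr n x ↔ y ∈ I n x := by
  constructor
  · intro h j hj
    exact congrFun h ⟨j, hj⟩
  · intro h
    exact funext fun j => h j j.2

theorem I_eq (n : ℕ) (x : G m) : I n x = pr n ⁻¹' {pr n x} := by
  ext y
  rw [mem_preimage, mem_singleton_iff, pr_eq_iff]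

theorem I_meas (n : ℕ) (x : G m) : MeasurableSet (I n x) := by
  rw [I_eq]
  exact pr_meas n (measurableSet_singleton _)

variable (m) in
/-- The filtration: `F_n` is generated by the intervals `I_n(x)`. -/
def Fil : Filtration ℕ (inferInstance : MeasurableSpace (G m)) where
  seq n := MeasurableSpace.generateFrom {A | ∃ x, A = I n x}
  mono' := by
    refine monotone_nat_of_le_succ fun n => ?_
    refine MeasurableSpace.generateFrom_le ?_
    rintro A ⟨x, rfl⟩
    have h : I n x = ⋃ a : Fin (m n), I (n + 1) (Function.update x n a) := by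
      ext y
      rw [mem_iUnion]
      constructor
      · intro hy
        refine ⟨y n, fun j hj => ?_⟩
        rcases Nat.lt_succ_iff_lt_or_eq.mp hj with h1 | rfl
        · rw [Function.update_of_ne h1.ne]
          exact hy j h1
        · rw [Function.update_self]
      · rintro ⟨a, hy⟩ j hj
        have := hy j (by omega)
        rwa [Function.update_of_ne hj.ne] at this
    rw [h]
    exact MeasurableSet.iUnion fun a => MeasurableSpace.measurableSet_generateFrom ⟨_, rfl⟩
  le' n := by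
    refine MeasurableSpace.generateFrom_le ?_
    rintro A ⟨x, rfl⟩
    exact I_meas n x

theorem fil_le (n : ℕ) : (Fil m n : MeasurableSpace (G m)) ≤ MeasurableSpace.comap (pr n) ⊤ := by
  refine MeasurableSpace.generateFrom_le ?_
  rintro A ⟨x, rfl⟩
  rw [I_eq]
  exact ⟨_, MeasurableSpace.measurableSet_top, rfl⟩

theorem I_fil (n : ℕ) (x : G m) : MeasurableSet[Fil m n] (I n x) :=
  MeasurableSpace.measurableSet_generateFrom ⟨x, rfl⟩

theorem const_on {n : ℕ} {g : G m → ℂ} (hg : StronglyMeasurable[Fil m n] g) {x y : G m}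
    (h : y ∈ I n x) : g y = g x := by
  have h1 : MeasurableSet[Fil m n] (g ⁻¹' {g x}) := hg.measurable (measurableSet_singleton _)
  obtain ⟨t, -, ht⟩ := fil_le n _ h1
  have h2 : x ∈ pr n ⁻¹' t := by
    rw [ht]
    rfl
  have h3 : y ∈ pr n ⁻¹' t := by
    rw [mem_preimage] at h2 ⊢
    rw [pr_eq_iff.mpr h]
    exact h2
  rw [ht] at h3
  exact h3

end

section
variable (m : ℕ → ℕ) [∀ k, NeZero (m k)]

/-- The product of the uniform probability measures. -/
noncomputable def mu : Measure (G m) :=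
  Measure.infinitePi (fun k => (PMF.uniformOfFintype (Fin (m k))).toMeasure)

instance : IsProbabilityMeasure (mu m) := by
  unfold mu
  infer_instance

variable {m}

theorem mm (k : ℕ) : 0 < m k := Nat.pos_of_ne_zero (NeZero.ne (m k))

/-- A section of the projection. -/
def sec (n : ℕ) (y : X m n) : G m := fun j => if h : j < n then y ⟨j, h⟩ else 0

theorem pr_sec (n : ℕ) (y : X m n) : pr n (sec n y) = y := by
  funext j
  unfold pr sec
  rw [dif_pos j.2]

theorem unif_singleton (k : ℕ) (a : Fin (m k)) :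
    (PMF.uniformOfFintype (Fin (m k))).toMeasure {a} = (m k : ℝ≥0∞)⁻¹ := by
  rw [PMF.toMeasure_apply_singleton _ _ (measurableSet_singleton _)]
  simp

theorem mu_I (n : ℕ) (x : G m) : mu m (I n x) = (M m n : ℝ≥0∞)⁻¹ := by
  have h1 : I n x = Set.pi (Finset.range n : Set ℕ) (fun j => {x j}) := by
    ext y
    simp [I]
  rw [h1]
  unfold mu
  rw [Measure.infinitePi_pi _ (fun i _ => measurableSet_singleton _)]
  rw [Finset.prod_congr rfl (fun i _ => unif_singleton i (x i))]
  unfold M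
  push_cast
  rw [ENNReal.prod_inv_distrib]
  intro i _ j _ _
  left
  exact_mod_cast (mm (m := m) i).ne'

theorem map_singleton (n : ℕ) (y : X m n) : (mu m).map (pr n) {y} = (M m n : ℝ≥0∞)⁻¹ := by
  rw [Measure.map_apply (pr_meas n) (measurableSet_singleton _)]
  have : pr n ⁻¹' {y} = I n (sec n y) := by rw [I_eq, pr_sec]
  rw [this, mu_I]

theorem lint (n : ℕ) (h : X m n → ℝ≥0∞) :
    ∫⁻ x, h (pr n x) ∂mu m = (M m n : ℝ≥0∞)⁻¹ * ∑ y, h y := by
  rw [← lintegral_map (measurable_of_finite h) (pr_meas n), lintegral_fintype, Finset.mul_sum]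
  refine Finset.sum_congr rfl fun y _ => ?_
  rw [map_singleton, mul_comm]

instance (n : ℕ) : IsProbabilityMeasure ((mu m).map (pr n)) :=
  Measure.isProbabilityMeasure_map (pr_meas n).aemeasurable

theorem integ (n : ℕ) (h : X m n → ℂ) :
    ∫ x, h (pr n x) ∂mu m = (M m n : ℂ)⁻¹ * ∑ y, h y := by
  rw [← integral_map (pr_meas n).aemeasurable (measurable_of_finite h).aestronglyMeasurable,
    integral_fintype (Integrable.of_finite), Finset.mul_sum]
  refine Finset.sum_congr rfl fun y _ => ?_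
  rw [measureReal_def, map_singleton, ENNReal.toReal_inv, ENNReal.toReal_natCast]
  rw [Complex.real_smul]
  push_cast
  rfl

omit [∀ k, NeZero (m k)] in
theorem I_eq_cyl {k n : ℕ} (hk : k ≤ n) (x : G m) : I k x = pr n ⁻¹' (cyl k (pr n x) : Set (X m n)) := by
  ext y
  rw [mem_preimage, Finset.mem_coe, mem_cyl]
  constructor
  · intro h j hj
    exact h j hj
  · intro h j hj
    exact h ⟨j, by omega⟩ hj

theorem set_integ {k n : ℕ} (hk : k ≤ n) (x : G m) (h : X m n → ℂ) :
    ∫ z in I k x, h (pr n z) ∂mu m = (M m n : ℂ)⁻¹ * ∑ y ∈ cyl k (pr n x), h y := by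
  classical
  rw [← integral_indicator (I_meas k x)]
  have e : (I k x).indicator (fun z => h (pr n z)) =
      fun z => (fun y => if y ∈ cyl k (pr n x) then h y else 0) (pr n z) := by
    funext z
    rw [I_eq_cyl hk]
    by_cases hz : z ∈ pr n ⁻¹' (cyl k (pr n x) : Set (X m n))
    · rw [indicator_of_mem hz]
      simp only
      rw [if_pos (Finset.mem_coe.mp hz)]
    · rw [indicator_of_notMem hz]
      simp only
      rw [if_neg (fun h => hz (Finset.mem_coe.mpr h))]
  rw [e, integ]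
  congr 1
  rw [← Finset.sum_filter]
  congr 1
  ext y
  simp

/-- Level `n` of a martingale as a function on the finite space. -/
noncomputable def lev (f : ℕ → G m → ℂ) (n : ℕ) (y : X m n) : ℂ := f n (sec n y)

theorem lev_pr {f : ℕ → G m → ℂ} (hf : Martingale f (Fil m) (mu m)) (n : ℕ) (x : G m) :
    f n x = lev f n (pr n x) := by
  unfold lev
  refine (const_on (hf.stronglyMeasurable n) ?_).symm
  rw [← pr_eq_iff, pr_sec]

theorem Ek_lev {f : ℕ → G m → ℂ} (hf : Martingale f (Fil m) (mu m)) {k n : ℕ} (hk : k ≤ n)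
    (x : G m) : Ek k (lev f n) (pr n x) = f k x := by
  have h1 := hf.setIntegral_eq hk (I_fil k x)
  have h2 : ∫ z in I k x, f n z ∂mu m = (M m n : ℂ)⁻¹ * ∑ y ∈ cyl k (pr n x), lev f n y := by
    rw [← set_integ hk]
    congr 1
    funext z
    exact lev_pr hf n z
  have h3 : ∫ z in I k x, f k z ∂mu m = (M m n : ℂ)⁻¹ * ∑ y ∈ cyl k (pr n x), f k x := by
    rw [← set_integ hk x (fun _ => f k x)]
    exact setIntegral_congr_fun (I_meas k x) fun z hz => const_on (hf.stronglyMeasurable k) hz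
  rw [h2, h3, Finset.sum_const, nsmul_eq_mul] at h1
  have hM : (M m n : ℂ) ≠ 0 := by exact_mod_cast (M_pos (fun k => mm k) n).ne'
  have h4 := mul_left_cancel₀ (inv_ne_zero hM) h1
  unfold Ek
  have h5 : ((cyl k (pr n x)).card : ℂ) ≠ 0 := by exact_mod_cast (card_pos' k (pr n x)).ne'
  rw [← h4]
  field_simp

end

/-! ## Vilenkin functions, Fourier coefficients, means -/

/-- The generalized Rademacher functions `r_k(x) = exp(2πi x_k / m_k)`. -/
noncomputable def r {m : ℕ → ℕ} (k : ℕ) (x : G m) : ℂ :=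
  Complex.exp (2 * Real.pi * Complex.I * ((x k : ℕ) : ℂ) / (m k : ℂ))

/-- The Vilenkin functions `ψ_n = ∏_k r_k ^ n_k`, `n_k` the digits of `n`. -/
noncomputable def psiG {m : ℕ → ℕ} (n : ℕ) (x : G m) : ℂ := ∏ᶠ k : ℕ, r k x ^ dig m k n

section
variable {m : ℕ → ℕ} [∀ k, NeZero (m k)]

/-- Fourier coefficients of a martingale. -/
noncomputable def fhat (f : ℕ → G m → ℂ) (i : ℕ) : ℂ :=
  limUnder atTop (fun k => ∫ x, f k x * starRingEnd ℂ (psiG i x) ∂mu m)

/-- Partial sums `S_n f = ∑_{k<n} f^(k) ψ_k`. -/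
noncomputable def Sf (f : ℕ → G m → ℂ) (n : ℕ) (x : G m) : ℂ :=
  ∑ k ∈ Finset.range n, fhat f k * psiG k x

/-- Riesz logarithmic means `R_n f = (1/l_n) ∑_{k=1}^n S_k f / k`, `l_n = ∑_{k=1}^n 1/k`. -/
noncomputable def Rf (f : ℕ → G m → ℂ) (n : ℕ) (x : G m) : ℂ :=
  (∑ k ∈ Finset.Icc 1 n, Sf f k x / (k : ℂ)) / (∑ k ∈ Finset.Icc 1 n, (1 : ℂ) / (k : ℂ))

theorem psiG_eq {n i : ℕ} (hi : i < M m n) (x : G m) : psiG i x = psi (pr n x) i := by
  unfold psiG psi ch
  rw [finprod_eq_prod_of_mulSupport_subset (s := Finset.range n)]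
  · refine Finset.prod_congr rfl fun j hj => ?_
    have hj' := Finset.mem_range.mp hj
    unfold r zs rt vl pr
    rw [dif_pos hj']
  · intro j hj
    rw [Function.mem_mulSupport] at hj
    by_contra hcon
    rw [Finset.coe_range, mem_Iio, not_lt] at hcon
    refine hj ?_
    rw [dig_small (fun k => mm k) hcon hi, pow_zero]

theorem integral_eq {f : ℕ → G m → ℂ} (hf : Martingale f (Fil m) (mu m)) {n i k : ℕ}
    (hi : i < M m n) (hk : n ≤ k) :
    ∫ x, f k x * starRingEnd ℂ (psiG i x) ∂mu m = coef (lev f n) i := by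
  classical
  have hcover : (univ : Set (G m)) = ⋃ y ∈ (Finset.univ : Finset (X m n)), I n (sec n y) := by
    ext x
    simp only [mem_univ, Finset.mem_univ, iUnion_true, mem_iUnion, true_iff]
    refine ⟨pr n x, ?_⟩
    rw [← pr_eq_iff, pr_sec]
  have hint : Integrable (fun x => f k x * starRingEnd ℂ (psiG i x)) (mu m) := by
    have h1 : (fun x => f k x * starRingEnd ℂ (psiG i x)) =
        fun x => (fun y : X m k => lev f k y * starRingEnd ℂ (psi y i)) (pr k x) := by
      funext x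
      have hik : i < M m k := hi.trans_le (Nat.le_of_dvd (M_pos (fun k => mm k) k) (M_dvd hk))
      rw [psiG_eq hik, lev_pr hf k]
    rw [h1]
    have h9 : Integrable (fun y : X m k => lev f k y * starRingEnd ℂ (psi y i))
        ((mu m).map (pr k)) := Integrable.of_finite
    exact h9.comp_measurable (pr_meas k)
  have hdisj : Set.Pairwise (↑(Finset.univ : Finset (X m n)))
      (Function.onFun Disjoint fun y : X m n => I n (sec n y)) := by
    intro y _ y' _ hne
    rw [Function.onFun, Set.disjoint_left]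
    intro x hx hx'
    refine hne ?_
    rw [← pr_eq_iff, pr_sec] at hx hx'
    rw [← hx, hx']
  have hsplit := integral_biUnion_finset (μ := mu m) (f := fun x => f k x * starRingEnd ℂ (psiG i x))
    (Finset.univ : Finset (X m n)) (s := fun y => I n (sec n y)) (fun y _ => I_meas n _) hdisj
    (fun y _ => hint.integrableOn)
  rw [← hcover, setIntegral_univ] at hsplit
  rw [hsplit]
  unfold coef
  rw [Finset.mul_sum]
  refine Finset.sum_congr rfl fun y _ => ?_
  have h2 : ∫ x in I n (sec n y), f k x * starRingEnd ℂ (psiG i x) ∂mu m =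
      (∫ x in I n (sec n y), f k x ∂mu m) * starRingEnd ℂ (psi y i) := by
    have e1 : (∫ x in I n (sec n y), f k x ∂mu m) * starRingEnd ℂ (psi y i) =
        ∫ x in I n (sec n y), f k x * starRingEnd ℂ (psi y i) ∂mu m :=
      (integral_mul_const _ _).symm
    rw [e1]
    refine setIntegral_congr_fun (I_meas n _) fun x hx => ?_
    change f k x * starRingEnd ℂ (psiG i x) = f k x * starRingEnd ℂ (psi y i)
    rw [psiG_eq hi, pr_eq_iff.mpr hx, pr_sec]
  have h3 := hf.setIntegral_eq hk (I_fil n (sec n y))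
  have h4 : ∫ z in I n (sec n y), f n z ∂mu m = (M m n : ℂ)⁻¹ * lev f n y := by
    have h5 := set_integ le_rfl (sec n y) (lev f n)
    rw [pr_sec, cyl_top, Finset.sum_singleton] at h5
    rw [← h5]
    congr 1
    funext z
    exact lev_pr hf n z
  rw [h2, ← h3, h4]
  ring

theorem fhat_eq {f : ℕ → G m → ℂ} (hf : Martingale f (Fil m) (mu m)) {n i : ℕ}
    (hi : i < M m n) : fhat f i = coef (lev f n) i := by
  unfold fhat
  refine Tendsto.limUnder_eq ?_
  refine tendsto_const_nhds.congr' ?_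
  filter_upwards [eventually_ge_atTop n] with k hk
  exact (integral_eq hf hi hk).symm

theorem l_Icc (n : ℕ) : (∑ k ∈ Finset.Icc 1 n, (1 : ℂ) / (k : ℂ)) = ((l n : ℝ) : ℂ) := by
  induction n with
  | zero => simp [l]
  | succ n ih =>
    rw [Finset.sum_Icc_succ_top (by omega), ih]
    unfold l
    rw [Finset.sum_range_succ]
    push_cast
    ring

theorem abel_sum (a : ℕ → ℂ) (n : ℕ) :
    ∑ k ∈ Finset.Icc 1 n, (∑ i ∈ Finset.range k, a i) / (k : ℂ) =
      ∑ i ∈ Finset.range n, a i * ((l n : ℝ) - (l i : ℝ) : ℂ) := by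
  induction n with
  | zero => simp
  | succ n ih =>
    rw [Finset.sum_Icc_succ_top (by omega), ih]
    have h1 : ((l (n + 1) : ℝ) : ℂ) = (l n : ℝ) + 1 / ((n + 1 : ℕ) : ℂ) := by
      unfold l
      rw [Finset.sum_range_succ]
      push_cast
      ring
    have h2 : ∑ i ∈ Finset.range (n + 1), a i * ((l (n + 1) : ℝ) - (l i : ℝ) : ℂ) =
        ∑ i ∈ Finset.range (n + 1), a i * ((l n : ℝ) - (l i : ℝ) : ℂ) +
        (∑ i ∈ Finset.range (n + 1), a i) / ((n + 1 : ℕ) : ℂ) := by
      rw [Finset.sum_div, ← Finset.sum_add_distrib]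
      refine Finset.sum_congr rfl fun i _ => ?_
      rw [h1]
      ring
    rw [h2, Finset.sum_range_succ (fun i => a i * ((l n : ℝ) - (l i : ℝ) : ℂ)), sub_self, mul_zero,
      add_zero]

theorem Rf_eq {f : ℕ → G m → ℂ} (hf : Martingale f (Fil m) (mu m)) (n : ℕ) (x : G m) :
    Rf f (M m n) x = Rop m n (lev f n) (pr n x) := by
  unfold Rf Sf
  rw [l_Icc, abel_sum, Rop_apply, Finset.sum_div]
  refine Finset.sum_congr rfl fun i hi => ?_
  have hi' := Finset.mem_range.mp hi
  rw [fhat_eq hf hi', psiG_eq hi']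
  have hl : ((l (M m n) : ℝ) : ℂ) ≠ 0 := by
    exact_mod_cast (l_pos (M_pos (fun k => mm k) n)).ne'
  push_cast
  field_simp

/-- The estimate of the `p`-th powers. -/
theorem power_bound (h2 : ∀ k, 2 ≤ m k) {B : ℕ} (hB : ∀ k, m k ≤ B) {p : ℝ} (hp0 : 0 < p)
    (hp1 : p ≤ 1) {f : ℕ → G m → ℂ} (hf : Martingale f (Fil m) (mu m)) (n : ℕ) :
    ∫⁻ x, ‖Rf f (M m n) x‖ₑ ^ p ∂mu m ≤
      ENNReal.ofReal (1 + KB B p * 2 ^ p) * ∫⁻ x, (⨆ k, ‖f k x‖ₑ) ^ p ∂mu m := by
  have hK := KB_nonneg B hp0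
  set A : X m n → ℝ := fun y => (Finset.range (n + 1)).sup' ⟨0, by simp⟩
    (fun k => ‖Ek k (lev f n) y‖) with hA
  have hAle : ∀ k ≤ n, ∀ y, ‖Ek k (lev f n) y‖ ≤ A y := fun k hk y =>
    Finset.le_sup' (fun k => ‖Ek k (lev f n) y‖) (Finset.mem_range.mpr (by omega))
  have hA0 : ∀ y, 0 ≤ A y := fun y => (norm_nonneg _).trans (hAle n le_rfl y)
  have h1 := finite_main h2 hB (lev f n) hAle hp0 hp1
  have h3 : ∀ x, ‖Rf f (M m n) x‖ₑ ^ p =
      (fun y => ENNReal.ofReal (‖Rop m n (lev f n) y‖ ^ p)) (pr n x) := by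
    intro x
    simp only
    rw [Rf_eq hf, ← ENNReal.ofReal_rpow_of_nonneg (norm_nonneg _) hp0.le, ofReal_norm]
  rw [lintegral_congr h3, lint n (fun y => ENNReal.ofReal (‖Rop m n (lev f n) y‖ ^ p)),
    ← ENNReal.ofReal_sum_of_nonneg fun y _ => by positivity]
  have h4 : ENNReal.ofReal (∑ y, ‖Rop m n (lev f n) y‖ ^ p) ≤
      ENNReal.ofReal (1 + KB B p * 2 ^ p) * ∑ y, ENNReal.ofReal (A y ^ p) := by
    rw [← ENNReal.ofReal_sum_of_nonneg fun y _ => Real.rpow_nonneg (hA0 y) p,
      ← ENNReal.ofReal_mul (by positivity)]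
    exact ENNReal.ofReal_le_ofReal h1
  have h5 : (M m n : ℝ≥0∞)⁻¹ * ∑ y, ENNReal.ofReal (A y ^ p) ≤
      ∫⁻ x, (⨆ k, ‖f k x‖ₑ) ^ p ∂mu m := by
    rw [← lint n (fun y => ENNReal.ofReal (A y ^ p))]
    refine lintegral_mono fun x => ?_
    simp only
    rw [← ENNReal.ofReal_rpow_of_nonneg (hA0 _) hp0.le]
    refine ENNReal.rpow_le_rpow ?_ hp0.le
    obtain ⟨k, hk, hAk⟩ := Finset.exists_mem_eq_sup' (s := Finset.range (n + 1)) ⟨0, by simp⟩
      (fun k => ‖Ek k (lev f n) (pr n x)‖)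
    have hkn : k ≤ n := by
      have := Finset.mem_range.mp hk
      omega
    have h6 : A (pr n x) = ‖f k x‖ := by
      rw [hA]
      simp only
      rw [hAk, Ek_lev hf hkn]
    rw [h6, ofReal_norm]
    exact le_iSup (fun k => ‖f k x‖ₑ) k
  calc (M m n : ℝ≥0∞)⁻¹ * ENNReal.ofReal (∑ y, ‖Rop m n (lev f n) y‖ ^ p)
      ≤ (M m n : ℝ≥0∞)⁻¹ * (ENNReal.ofReal (1 + KB B p * 2 ^ p) *
        ∑ y, ENNReal.ofReal (A y ^ p)) := by gcongr
    _ = ENNReal.ofReal (1 + KB B p * 2 ^ p) * ((M m n : ℝ≥0∞)⁻¹ *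
        ∑ y, ENNReal.ofReal (A y ^ p)) := by ring
    _ ≤ _ := by gcongr

end

end Pool.Agent.R165.Vil
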